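import Pool.Agent.D0H78.WM.Pure

/-!
# Purity and the monodromy filtration
-/

set_option autoImplicit false

namespace Pool.Agent.D0H78.WM

open Module Filter

variable {M : Type} [AddCommGroup M] [Module ℂ M]

section zpow

theorem zpow_inj {q : ℝ} (hq : 1 < q) {a b : ℤ} (h : q ^ a = q ^ b) : a = b :=
  zpow_right_injective₀ (by linarith) hq.ne' h

theorem pow_zpow {q : ℝ} (m : ℕ) (a : ℤ) : (q ^ m) ^ a = (q ^ a) ^ m := by
  rw [← zpow_natCast, ← zpow_mul, ← zpow_natCast, ← zpow_mul, mul_comm]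

end zpow

/-- the relation for powers -/
theorem rel_pow {q : ℝ} {S N : End ℂ M} (h : ∀ x, S (N x) = (q : ℂ)⁻¹ • N (S x)) (m : ℕ) (x : M) :
    (S ^ m) (N x) = ((q ^ m : ℝ) : ℂ)⁻¹ • N ((S ^ m) x) := by
  induction m with
  | zero => simp
  | succ m ih =>
    rw [pow_succ' S, Module.End.mul_apply, ih, map_smul, h, smul_smul, Module.End.mul_apply]
    congr 1
    push_cast
    rw [pow_succ, mul_inv]

section fitting

variable [FiniteDimensional ℂ M]

/-- an invariant subspace contains the components of its elements -/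
theorem part_mem {S : End ℂ M} {F : Submodule ℂ M} (hF : ∀ x ∈ F, S x ∈ F) {z : ℂ} {p : M}
    (hp : p ∈ S.maxGenEigenspace z) (r : ℕ → M)
    (hr : ∀ᶠ D in atTop, p - ((S - z • 1 : End ℂ M) ^ D) (r D) ∈ F) : p ∈ F := by
  have hFc : F ≤ F.comap S := hF
  let S' : End ℂ (M ⧸ F) := F.mapQ F S hFc
  have h0 : ∀ x, F.mkQ (S x) = S' (F.mkQ x) := fun x => rfl
  have h1 : ∀ y, F.mkQ ((S - z • 1 : End ℂ M) y) = (S' - z • 1 : End ℂ (M ⧸ F)) (F.mkQ y) := by
    intro y
    simp only [LinearMap.sub_apply, map_sub, h0, LinearMap.smul_apply, map_smul,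
      Module.End.one_apply]
  obtain ⟨k, hk⟩ := (Module.End.mem_maxGenEigenspace _ _ _).1 (map_mem h0 hp)
  obtain ⟨D, ⟨hD1, hD2⟩, hD3⟩ := (((LinearMap.eventually_isCompl_ker_pow_range_pow
    (S' - z • 1 : End ℂ (M ⧸ F))).and hr).and (eventually_ge_atTop k)).exists
  have h2 : F.mkQ p = ((S' - z • 1 : End ℂ (M ⧸ F)) ^ D) (F.mkQ (r D)) := by
    rw [← comm_pow h1, ← sub_eq_zero, ← map_sub]
    exact (Submodule.Quotient.mk_eq_zero F).2 hD2
  have h3 : F.mkQ p ∈ LinearMap.ker ((S' - z • 1 : End ℂ (M ⧸ F)) ^ D) := by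
    rw [LinearMap.mem_ker, ← Nat.sub_add_cancel hD3, pow_add, Module.End.mul_apply, hk, map_zero]
  have h4 := hD1.disjoint.le_bot (Submodule.mem_inf.2 ⟨h3, ⟨_, h2.symm⟩⟩)
  exact (Submodule.Quotient.mk_eq_zero F).1 (by simpa using h4)

end fitting

section one

/-- The filtration `Fil` is the monodromy filtration of `N` -/
structure MF (N : End ℂ M) (Fil : ℤ → Submodule ℂ M) : Prop where
  mono : Monotone Fil
  bot : ∃ a, Fil a = ⊥
  top : ∃ b, Fil b = ⊤
  low : ∀ s, ∀ x ∈ Fil s, N x ∈ Fil (s - 2)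
  inj : ∀ s : ℕ, ∀ x ∈ Fil s, (N ^ s) x ∈ Fil (-s - 1) → x ∈ Fil (s - 1)
  surj : ∀ s : ℕ, ∀ y ∈ Fil (-s), ∃ x ∈ Fil s, y - (N ^ s) x ∈ Fil (-s - 1)

/-- eigenvalues of a product -/
theorem exists_factor {S : End ℂ M} {F G : Submodule ℂ M} (hF : ∀ x ∈ F, S x ∈ F) (L : List ℂ) :
    ∀ x ∈ F, x ∉ G → (L.map fun z => (S - z • 1 : End ℂ M)).prod x ∈ G →
      ∃ z ∈ L, ∃ y ∈ F, y ∉ G ∧ S y - z • y ∈ G := by
  induction L with
  | nil => exact fun x _ hx h => absurd (by simpa using h) hx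
  | cons z L ih =>
    intro x hx hxG h
    rw [List.map_cons, List.prod_cons, Module.End.mul_apply] at h
    by_cases h1 : (L.map fun z => (S - z • 1 : End ℂ M)).prod x ∈ G
    · obtain ⟨z', hz', y, hy⟩ := ih x hx hxG h1
      exact ⟨z', List.mem_cons_of_mem _ hz', y, hy⟩
    · refine ⟨z, List.mem_cons_self, _, ?_, h1, ?_⟩
      · clear h1 h ih
        induction L with
        | nil => simpa using hx
        | cons z' L ih' =>
          rw [List.map_cons, List.prod_cons, Module.End.mul_apply, LinearMap.sub_apply]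
          exact F.sub_mem (hF _ ih') (F.smul_mem _ ih')
      · simpa using h

theorem eig_pow {q : ℝ} {w : ℤ} {S : End ℂ M} {Fil : ℤ → Submodule ℂ M}
    (hS : ∀ s, ∀ x ∈ Fil s, S x ∈ Fil s)
    (heig : ∀ (s : ℤ) (z : ℂ), ∀ x ∈ Fil s, x ∉ Fil (s - 1) → S x - z • x ∈ Fil (s - 1) →
      ‖z‖ ^ 2 = q ^ (w + s)) {m : ℕ} (hm : 0 < m) (s : ℤ) (z : ℂ) (x : M) (hx : x ∈ Fil s)
    (hx' : x ∉ Fil (s - 1)) (h : (S ^ m) x - z • x ∈ Fil (s - 1)) :
    ‖z‖ ^ 2 = (q ^ m) ^ (w + s) := by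
  have hmon : (Polynomial.X ^ m - Polynomial.C z : Polynomial ℂ).Monic :=
    Polynomial.monic_X_pow_sub_C z hm.ne'
  have hspl := IsAlgClosed.splits (Polynomial.X ^ m - Polynomial.C z : Polynomial ℂ)
  have hprod : (Polynomial.X ^ m - Polynomial.C z : Polynomial ℂ) =
      ((Polynomial.X ^ m - Polynomial.C z : Polynomial ℂ).roots.map
        fun a => Polynomial.X - Polynomial.C a).prod := by
    exact hspl.eq_prod_roots_of_monic hmon
  set L : List ℂ := (Polynomial.X ^ m - Polynomial.C z : Polynomial ℂ).roots.toList with hL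
  have hLr : ((L : List ℂ) : Multiset ℂ) =
    (Polynomial.X ^ m - Polynomial.C z : Polynomial ℂ).roots := Multiset.coe_toList _
  have h1 : (L.map fun z => (S - z • 1 : End ℂ M)).prod = S ^ m - z • 1 := by
    have h2 : (L.map fun a => (Polynomial.X - Polynomial.C a : Polynomial ℂ)).prod =
        Polynomial.X ^ m - Polynomial.C z := by
      rw [hprod, ← hLr, Multiset.map_coe, Multiset.prod_coe]
    have h3 := congrArg (Polynomial.aeval S) h2
    rw [map_list_prod, List.map_map] at h3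
    have h4 : (L.map fun z => (S - z • 1 : End ℂ M)) =
        L.map (⇑(Polynomial.aeval S) ∘ fun a => (Polynomial.X - Polynomial.C a : Polynomial ℂ)) := by
      apply List.map_congr_left
      intro a _
      simp [Algebra.algebraMap_eq_smul_one]
    rw [h4, h3]
    simp [Algebra.algebraMap_eq_smul_one]
  obtain ⟨μ, hμ, y, hy, hyG, hyS⟩ := exists_factor (hS s) L x hx hx' (by
    rw [h1]
    simpa using h)
  have h5 := heig s μ y hy hyG hyS
  have h6 : μ ∈ (Polynomial.X ^ m - Polynomial.C z : Polynomial ℂ).roots := by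
    rw [← hLr]
    exact hμ
  have h7 : μ ^ m = z := by
    have := (Polynomial.mem_roots'.1 h6).2
    rw [Polynomial.IsRoot.def, Polynomial.eval_sub, Polynomial.eval_pow, Polynomial.eval_X,
      Polynomial.eval_C] at this
    exact sub_eq_zero.1 this
  rw [← h7, norm_pow, pow_zpow, ← h5, ← pow_mul, ← pow_mul, mul_comm]

theorem shift {S A : End ℂ M} {c : ℂ} (hc : c ≠ 0) (h : ∀ y, S (A y) = c⁻¹ • A (S y)) (z : ℂ)
    (D : ℕ) (v : M) : ((S - (z / c) • 1 : End ℂ M) ^ D) (c ^ D • A v) =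
      A (((S - z • 1 : End ℂ M) ^ D) v) := by
  have h1 : ∀ y, (S - (z / c) • 1 : End ℂ M) (c • A y) = A ((S - z • 1 : End ℂ M) y) := by
    intro y
    simp only [LinearMap.sub_apply, LinearMap.smul_apply, Module.End.one_apply, map_smul,
      map_sub, h, smul_sub, smul_smul]
    rw [mul_inv_cancel₀ hc, one_smul, mul_div_cancel₀ _ hc]
  induction D generalizing v with
  | zero => simp
  | succ D ih =>
    rw [pow_succ, pow_succ (S - z • 1 : End ℂ M), Module.End.mul_apply, Module.End.mul_apply,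
      ← ih, pow_succ, mul_smul, map_smul, h1]

/-- **From the filtration to purity** -/
theorem pure_of_fil [FiniteDimensional ℂ M] {q : ℝ} (hq : 1 < q) {w : ℤ} {S N : End ℂ M}
    (hrel : ∀ x, S (N x) = (q : ℂ)⁻¹ • N (S x)) {Fil : ℤ → Submodule ℂ M} (hFil : MF N Fil)
    (hS : ∀ s, ∀ x ∈ Fil s, S x ∈ Fil s)
    (heig : ∀ (s : ℤ) (z : ℂ), ∀ x ∈ Fil s, x ∉ Fil (s - 1) → S x - z • x ∈ Fil (s - 1) →
      ‖z‖ ^ 2 = q ^ (w + s)) {m : ℕ} (hm : 0 < m) : Pure (q ^ m) w (S ^ m) N := by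
  have hqm : 1 < q ^ m := one_lt_pow₀ hq hm.ne'
  have hqm0 : q ^ m ≠ 0 := by positivity
  have hqc : ((q ^ m : ℝ) : ℂ) ≠ 0 := by exact_mod_cast hqm0
  have hS' : ∀ s, ∀ x ∈ Fil s, (S ^ m) x ∈ Fil s := by
    intro s x hx
    clear hm hqm hqm0 hqc
    induction m with
    | zero => simpa using hx
    | succ m ih =>
      rw [pow_succ', Module.End.mul_apply]
      exact hS s _ ih
  have heig' := fun s z x hx hx' h => eig_pow hS heig hm s z x hx hx' h
  -- levels
  have hlev : ∀ x : M, x ≠ 0 → ∃ s : ℤ, x ∈ Fil s ∧ x ∉ Fil (s - 1) := by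
    intro x hx
    obtain ⟨a, ha⟩ := hFil.bot
    obtain ⟨b, hb⟩ := hFil.top
    by_contra hcon
    push Not at hcon
    have h1 : ∀ k : ℕ, x ∈ Fil (b - k) := by
      intro k
      induction k with
      | zero =>
        rw [Nat.cast_zero, sub_zero, hb]
        exact Submodule.mem_top
      | succ k ih =>
        have := hcon _ ih
        rwa [show b - (k + 1 : ℕ) = b - k - 1 by push_cast; ring]
    have h2 : x ∈ Fil a := hFil.mono (by omega) (h1 (b - a).toNat)
    rw [ha] at h2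
    exact hx (by simpa using h2)
  have hL1 : ∀ (s : ℤ) (z : ℂ), ∀ x ∈ (S ^ m).maxGenEigenspace z, x ∈ Fil s → x ∉ Fil (s - 1) →
      ‖z‖ ^ 2 = (q ^ m) ^ (w + s) := by
    intro s z x hx hxs hxs'
    obtain ⟨k, hk⟩ := (Module.End.mem_maxGenEigenspace _ _ _).1 hx
    have h1 : ∃ k : ℕ, ((S ^ m - z • 1 : End ℂ M) ^ k) x ∈ Fil (s - 1) :=
      ⟨k, by rw [hk]; exact Submodule.zero_mem _⟩
    classical
    have h2 := Nat.find_spec h1
    have h3 : Nat.find h1 ≠ 0 := by
      intro h0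
      rw [h0, pow_zero] at h2
      exact hxs' h2
    obtain ⟨d, hd⟩ := Nat.exists_eq_succ_of_ne_zero h3
    have h4 : ((S ^ m - z • 1 : End ℂ M) ^ d) x ∉ Fil (s - 1) :=
      Nat.find_min h1 (by omega)
    have h5 : ∀ i : ℕ, ((S ^ m - z • 1 : End ℂ M) ^ i) x ∈ Fil s := by
      intro i
      induction i with
      | zero => simpa using hxs
      | succ i ih =>
        rw [pow_succ', Module.End.mul_apply, LinearMap.sub_apply]
        exact (Fil s).sub_mem (hS' s _ ih) ((Fil s).smul_mem _ ih)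
    refine heig' s z _ (h5 d) h4 ?_
    rw [hd, pow_succ', Module.End.mul_apply] at h2
    exact h2
  have hL2 : ∀ (j : ℤ) (z : ℂ), ‖z‖ ^ 2 = (q ^ m) ^ (w + j) →
      ∀ x ∈ (S ^ m).maxGenEigenspace z, x ∈ Fil j ∧ (x ∈ Fil (j - 1) → x = 0) := by
    intro j z hz x hx
    by_cases hx0 : x = 0
    · subst hx0
      exact ⟨Submodule.zero_mem _, fun _ => rfl⟩
    obtain ⟨s, hs, hs'⟩ := hlev x hx0
    have h1 := hL1 s z x hx hs hs'
    rw [hz] at h1
    have h2 := zpow_inj hqm h1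
    obtain rfl : j = s := by omega
    exact ⟨hs, fun h => absurd h hs'⟩
  constructor
  · rintro z ⟨x, hx, hx0⟩
    obtain ⟨s, hs, hs'⟩ := hlev x hx0
    exact ⟨s, hL1 s z x hx hs hs'⟩
  · intro j z hz x hx hxN
    have h1 := hL2 j z hz x hx
    exact h1.2 (hFil.inj j x h1.1 (by rw [hxN]; exact Submodule.zero_mem _))
  · intro j z hz y hy
    have hz' : ‖z / ((q ^ m : ℝ) : ℂ) ^ j‖ ^ 2 = (q ^ m) ^ (w + (-(j : ℤ))) := by
      rw [norm_div, norm_pow, div_pow, hz, Complex.norm_real, Real.norm_of_nonneg (by positivity),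
        div_eq_mul_inv, ← pow_mul, ← zpow_natCast (q ^ m) (j * 2), ← zpow_neg, ← zpow_add₀ hqm0]
      congr 1
      push_cast
      ring
    have h1 := hL2 _ _ hz' y hy
    obtain ⟨x, hx, hxy⟩ := hFil.surj j y h1.1
    -- the component
    obtain ⟨a, b, ha, hab, hb⟩ : ∃ (a : M) (b : ℕ → M), a ∈ (S ^ m).maxGenEigenspace z ∧ True ∧
        ∀ᶠ D in atTop, x = a + ((S ^ m - z • 1 : End ℂ M) ^ D) (b D) := by
      have h2 := LinearMap.isCompl_iSup_ker_pow_iInf_range_pow (S ^ m - z • 1 : End ℂ M)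
      have h3 : x ∈ (⨆ n, LinearMap.ker ((S ^ m - z • 1 : End ℂ M) ^ n)) ⊔
          (⨅ n, LinearMap.range ((S ^ m - z • 1 : End ℂ M) ^ n)) := by
        rw [h2.sup_eq_top]
        exact Submodule.mem_top
      obtain ⟨a, ha, c, hc, hac⟩ := Submodule.mem_sup.1 h3
      rw [Submodule.mem_iInf] at hc
      choose b hb using hc
      refine ⟨a, b, ?_, trivial, Eventually.of_forall fun D => by rw [hb, hac]⟩
      rw [Module.End.mem_maxGenEigenspace]
      have h4 : Monotone fun n => LinearMap.ker ((S ^ m - z • 1 : End ℂ M) ^ n) := by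
        intro i j hij x hx
        rw [LinearMap.mem_ker] at hx ⊢
        rw [← Nat.sub_add_cancel hij, pow_add, Module.End.mul_apply, hx, map_zero]
      exact (Submodule.mem_iSup_of_directed _ h4.directed_le).1 ha
    refine ⟨a, ha, ?_⟩
    have hNa := lower_pow hqm0 (rel_pow hrel m) j z a ha
    have h2 : y - (N ^ j) a ∈ Fil (-(j : ℤ) - 1) := by
      refine part_mem (hS' _) (Submodule.sub_mem _ hy hNa)
        (fun D => (((q ^ m : ℝ) : ℂ) ^ j) ^ D • (N ^ j) (b D)) ?_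
      filter_upwards [hb] with D hD
      have h5 : ∀ (j : ℕ) (y : M), (S ^ m) ((N ^ j) y) =
          (((q ^ m : ℝ) : ℂ) ^ j)⁻¹ • (N ^ j) ((S ^ m) y) := by
        intro j y
        induction j with
        | zero => simp
        | succ j ih =>
          rw [pow_succ' N, Module.End.mul_apply, rel_pow hrel, ih, map_smul, smul_smul,
            Module.End.mul_apply, pow_succ, mul_inv, mul_comm]
      have h3 := shift (pow_ne_zero j hqc) (h5 j) z D (b D)
      rw [h3]
      have h6 : y - (N ^ j) a - (N ^ j) (((S ^ m - z • 1 : End ℂ M) ^ D) (b D)) =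
          y - (N ^ j) x := by
        rw [hD, map_add]
        abel
      rw [h6]
      exact hxy
    have h3 := (hL2 _ _ hz' _ (Submodule.sub_mem _ hy hNa)).2 h2
    exact (sub_eq_zero.1 h3).symm

end one

end Pool.Agent.D0H78.WM
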