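import Pool.Agent.D0H78.WM.Fil

/-!
# The monodromy filtration of a pure pair
-/

set_option autoImplicit false

namespace Pool.Agent.D0H78.WM

open Module Filter

variable {M : Type} [AddCommGroup M] [Module ℂ M]

section comp

/-- linear maps which agree on the generalised eigenspaces -/
theorem ext_T [FiniteDimensional ℂ M] {M' : Type} [AddCommGroup M'] [Module ℂ M'] (S : End ℂ M)
    {A B : M →ₗ[ℂ] M'} (h : ∀ z, ∀ x ∈ S.maxGenEigenspace z, A x = B x) : A = B := by
  ext x
  have hx : x ∈ ⨆ z, S.maxGenEigenspace z := by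
    rw [Module.End.iSup_maxGenEigenspace_eq_top]
    exact Submodule.mem_top
  induction hx using Submodule.iSup_induction' with
  | mem z x hx => exact h z x hx
  | zero => simp
  | add x y _ _ hx hy => rw [map_add, map_add, hx, hy]

theorem exists_comp [FiniteDimensional ℂ M] (S : End ℂ M) : ∃ (c : ℂ → End ℂ M) (Λ : Finset ℂ),
    (∀ z x, c z x ∈ S.maxGenEigenspace z) ∧ (∀ z, ∀ x ∈ S.maxGenEigenspace z, c z x = x) ∧
    (∀ z z', z' ≠ z → ∀ x ∈ S.maxGenEigenspace z', c z x = 0) ∧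
    (∀ z, z ∉ Λ → c z = 0) ∧ ∀ x, ∑ z ∈ Λ, c z x = x := by
  classical
  have hind := Module.End.independent_maxGenEigenspace S
  have htop := Module.End.iSup_maxGenEigenspace_eq_top S
  have hcompl : ∀ z, IsCompl (S.maxGenEigenspace z) (⨆ (z') (_ : z' ≠ z), S.maxGenEigenspace z') := by
    intro z
    refine ⟨hind z, ?_⟩
    rw [codisjoint_iff, eq_top_iff, ← htop]
    refine iSup_le fun z' => ?_
    by_cases h : z' = z
    · rw [h]
      exact le_sup_left
    · exact le_trans (le_iSup₂_of_le (f := fun z' (_ : z' ≠ z) => S.maxGenEigenspace z') z' h le_rfl)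
        le_sup_right
  let c : ℂ → End ℂ M := fun z => (S.maxGenEigenspace z).subtype.comp
    ((S.maxGenEigenspace z).projectionOnto _ (hcompl z))
  have hfin : {z | S.maxGenEigenspace z ≠ ⊥}.Finite :=
    WellFoundedGT.finite_ne_bot_of_iSupIndep hind
  have h1 : ∀ z x, c z x ∈ S.maxGenEigenspace z := fun z x =>
    ((S.maxGenEigenspace z).projectionOnto _ (hcompl z) x).2
  have h2 : ∀ z, ∀ x ∈ S.maxGenEigenspace z, c z x = x := fun z x hx =>
    congrArg Subtype.val (Submodule.projectionOnto_apply_left (hcompl z) ⟨x, hx⟩)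
  have h3 : ∀ z z', z' ≠ z → ∀ x ∈ S.maxGenEigenspace z', c z x = 0 := by
    intro z z' hz x hx
    have h4 : x ∈ (⨆ (z') (_ : z' ≠ z), S.maxGenEigenspace z') :=
      (le_iSup₂_of_le (f := fun z' (_ : z' ≠ z) => S.maxGenEigenspace z') z' hz le_rfl) hx
    exact congrArg Subtype.val (Submodule.projectionOnto_apply_of_mem_right (hcompl z) h4)
  have h4 : ∀ z, z ∉ hfin.toFinset → c z = 0 := by
    intro z hz
    rw [Set.Finite.mem_toFinset, Set.mem_ofPred_eq, not_not] at hz
    ext x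
    have := h1 z x
    rw [hz] at this
    simpa using this
  refine ⟨c, hfin.toFinset, h1, h2, h3, h4, ?_⟩
  have h5 : ∑ z ∈ hfin.toFinset, c z = LinearMap.id := by
    apply ext_T S
    intro z x hx
    rw [LinearMap.sum_apply, LinearMap.id_apply]
    by_cases hz : z ∈ hfin.toFinset
    · rw [Finset.sum_eq_single z]
      · exact h2 z x hx
      · intro z' _ hz'
        exact h3 z' z (Ne.symm hz') x hx
      · exact fun h => absurd hz h
    · rw [Set.Finite.mem_toFinset, Set.mem_ofPred_eq, not_not] at hz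
      rw [hz] at hx
      have hx0 : x = 0 := by simpa using hx
      rw [hx0]
      simp
  intro x
  have := LinearMap.congr_fun h5 x
  rwa [LinearMap.sum_apply, LinearMap.id_apply] at this

end comp

/-- **From purity to the filtration** -/
theorem fil_of_pure [FiniteDimensional ℂ M] {q : ℝ} (hq : 1 < q) {w : ℤ} {S N : End ℂ M}
    (hrel : ∀ x, S (N x) = (q : ℂ)⁻¹ • N (S x)) {m : ℕ} (hm : 0 < m)
    (h : Pure (q ^ m) w (S ^ m) N) : ∃ Fil : ℤ → Submodule ℂ M, MF N Fil ∧
      (∀ s, ∀ x ∈ Fil s, S x ∈ Fil s) ∧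
      ∀ (s : ℤ) (z : ℂ), ∀ x ∈ Fil s, x ∉ Fil (s - 1) → S x - z • x ∈ Fil (s - 1) →
        ‖z‖ ^ 2 = q ^ (w + s) := by
  classical
  obtain ⟨c, Λ, hc1, hc2, hc3, hc4, hc5⟩ := exists_comp (S ^ m)
  have hqm : 1 < q ^ m := one_lt_pow₀ hq hm.ne'
  have hqm0 : q ^ m ≠ 0 := by positivity
  have hqc : ((q ^ m : ℝ) : ℂ) ≠ 0 := by exact_mod_cast hqm0
  set Q : ℝ := q ^ m with hQ
  have hQpos : 0 < Q := by linarith
  -- commutation
  have hcS : ∀ z x, c z (S x) = S (c z x) := by
    intro z x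
    have h1 : (c z).comp S = S.comp (c z) := by
      apply ext_T (S ^ m)
      intro z' x hx
      have hSx : S x ∈ (S ^ m).maxGenEigenspace z' := by
        refine map_mem (S := S ^ m) (S' := S ^ m) (f := S) (fun y => ?_) hx
        rw [← Module.End.mul_apply, ← Module.End.mul_apply, ← pow_succ', ← pow_succ]
      rw [LinearMap.comp_apply, LinearMap.comp_apply]
      by_cases hz : z' = z
      · subst hz
        rw [hc2 z' _ hSx, hc2 z' x hx]
      · rw [hc3 z z' hz _ hSx, hc3 z z' hz x hx, map_zero]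
    exact LinearMap.congr_fun h1 x
  have hcN : ∀ (j : ℕ) z x, c (z / (Q : ℂ) ^ j) ((N ^ j) x) = (N ^ j) (c z x) := by
    intro j z x
    have h1 : (c (z / (Q : ℂ) ^ j)).comp (N ^ j) = (N ^ j).comp (c z) := by
      apply ext_T (S ^ m)
      intro z' x hx
      have hNx := lower_pow hqm0 (rel_pow hrel m) j z' x hx
      rw [LinearMap.comp_apply, LinearMap.comp_apply]
      by_cases hz : z' = z
      · subst hz
        rw [hc2 _ _ hNx, hc2 z' x hx]
      · rw [hc3 _ (z' / (Q : ℂ) ^ j) ?_ _ hNx, hc3 z z' hz x hx, map_zero]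
        intro h2
        exact hz ((div_left_inj' (pow_ne_zero j hqc)).1 h2)
    exact LinearMap.congr_fun h1 x
  have hnorm : ∀ (j : ℕ) (z : ℂ), ‖z / (Q : ℂ) ^ j‖ ^ 2 = ‖z‖ ^ 2 * Q ^ (-(2 * j : ℤ)) := by
    intro j z
    rw [norm_div, norm_pow, div_pow, Complex.norm_real, Real.norm_of_nonneg hQpos.le,
      div_eq_mul_inv, ← pow_mul, ← zpow_natCast Q (j * 2), ← zpow_neg]
    congr 2
    push_cast
    ring
  have hint : ∀ z x, c z x ≠ 0 → ∃ j : ℤ, ‖z‖ ^ 2 = Q ^ (w + j) := fun z x hx =>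
    h.int z ⟨c z x, hc1 z x, hx⟩
  have hlt : ∀ {a b : ℤ}, Q ^ a < Q ^ b ↔ a < b := fun {a b} => zpow_lt_zpow_iff_right₀ hqm
  -- the filtration
  let Fil : ℤ → Submodule ℂ M := fun s =>
    { carrier := {x | ∀ z : ℂ, Q ^ (w + s) < ‖z‖ ^ 2 → c z x = 0}
      zero_mem' := fun z _ => map_zero _
      add_mem' := fun {x y} hx hy z hz => by rw [map_add, hx z hz, hy z hz, add_zero]
      smul_mem' := fun a x hx z hz => by rw [map_smul, hx z hz, smul_zero] }
  have hmem : ∀ s x, x ∈ Fil s ↔ ∀ z : ℂ, Q ^ (w + s) < ‖z‖ ^ 2 → c z x = 0 := fun _ _ => Iff.rfl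
  have hmono : Monotone Fil := by
    intro s t hst x hx z hz
    refine hx z (lt_of_le_of_lt ?_ hz)
    exact zpow_le_zpow_right₀ hqm.le (by omega)
  have hstab : ∀ s, ∀ x ∈ Fil s, S x ∈ Fil s := by
    intro s x hx z hz
    rw [hcS, hx z hz, map_zero]
  have hjlist : ∃ A : ℕ, ∀ z ∈ Λ, ∀ j : ℤ, ‖z‖ ^ 2 = Q ^ (w + j) → -(A : ℤ) < j ∧ j ≤ A := by
    have h1 : ∀ z : ℂ, ∃ A : ℕ, ∀ j : ℤ, ‖z‖ ^ 2 = Q ^ (w + j) → -(A : ℤ) < j ∧ j ≤ A := by
      intro z
      by_cases h2 : ∃ j : ℤ, ‖z‖ ^ 2 = Q ^ (w + j)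
      · obtain ⟨j, hj⟩ := h2
        refine ⟨j.natAbs + 1, fun j' hj' => ?_⟩
        rw [hj] at hj'
        have := zpow_inj hqm hj'
        omega
      · exact ⟨0, fun j hj => absurd ⟨j, hj⟩ h2⟩
    choose A hA using h1
    refine ⟨∑ z ∈ Λ, A z, fun z hz j hj => ?_⟩
    have h2 := hA z j hj
    have h3 : A z ≤ ∑ z ∈ Λ, A z := Finset.single_le_sum (f := A) (fun _ _ => Nat.zero_le _) hz
    omega
  obtain ⟨A, hA⟩ := hjlist
  refine ⟨Fil, ⟨hmono, ⟨-(A : ℤ), ?_⟩, ⟨A, ?_⟩, ?_, ?_, ?_⟩, hstab, ?_⟩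
  · rw [eq_bot_iff]
    intro x hx
    rw [Submodule.mem_bot, ← hc5 x]
    apply Finset.sum_eq_zero
    intro z hz
    by_contra hne
    obtain ⟨j, hj⟩ := hint z x hne
    have h1 := (hA z hz j hj).1
    apply hne
    apply hx z
    rw [hj, hlt]
    omega
  · rw [eq_top_iff]
    intro x _ z hz
    by_contra hne
    obtain ⟨j, hj⟩ := hint z x hne
    have hzΛ : z ∈ Λ := by
      by_contra h0
      apply hne
      rw [hc4 z h0, LinearMap.zero_apply]
    have h1 := (hA z hzΛ j hj).2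
    rw [hj, hlt] at hz
    omega
  · intro s x hx z hz
    have h1 := hcN 1 (z * (Q : ℂ) ^ 1) x
    rw [mul_div_cancel_right₀ _ (pow_ne_zero 1 hqc), pow_one] at h1
    rw [h1]
    have h2 : c (z * (Q : ℂ) ^ 1) x = 0 := by
      apply hx
      have h3 := hnorm 1 (z * (Q : ℂ) ^ 1)
      rw [mul_div_cancel_right₀ _ (pow_ne_zero 1 hqc)] at h3
      rw [h3] at hz
      have h4 : Q ^ (w + (s - 2)) = Q ^ (w + s) * Q ^ (-(2 * (1 : ℕ) : ℤ)) := by
        rw [← zpow_add₀ hqm0]
        congr 1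
        push_cast
        ring
      rw [h4] at hz
      exact lt_of_mul_lt_mul_right hz (zpow_nonneg hQpos.le _)
    rw [h2, map_zero]
  · intro s x hx hNx z hz
    by_contra hne
    obtain ⟨j, hj⟩ := hint z x hne
    have h1 : ¬ (s : ℤ) < j := by
      intro h1
      apply hne
      apply hx z
      rw [hj, hlt]
      omega
    rw [hj, hlt] at hz
    obtain rfl : j = s := by omega
    apply hne
    apply h.inj s z hj _ (hc1 z x)
    rw [← hcN]
    apply hNx
    rw [hnorm, hj, ← zpow_add₀ hqm0, hlt]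
    push_cast
    omega
  · intro s y hy
    have h1 : ∀ z : ℂ, ∃ x ∈ (S ^ m).maxGenEigenspace z,
        (N ^ s) x = if ‖z‖ ^ 2 = Q ^ (w + s) then c (z / (Q : ℂ) ^ s) y else 0 := by
      intro z
      split_ifs with hz
      · exact h.surj s z hz _ (hc1 _ _)
      · exact ⟨0, Submodule.zero_mem _, map_zero _⟩
    choose xx hxx1 hxx2 using h1
    refine ⟨∑ u ∈ Λ, if ‖u * (Q : ℂ) ^ s‖ ^ 2 = Q ^ (w + s) then xx (u * (Q : ℂ) ^ s) else 0,
      ?_, ?_⟩
    · apply Submodule.sum_mem
      intro u _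
      split_ifs with hu
      · intro z hz
        apply hc3 z (u * (Q : ℂ) ^ s) ?_ _ (hxx1 _)
        rintro rfl
        rw [hu] at hz
        exact lt_irrefl _ hz
      · exact Submodule.zero_mem _
    · intro z hz
      rw [map_sub, sub_eq_zero, map_sum, map_sum]
      have h2 : ∀ u ∈ Λ, c z ((N ^ s) (if ‖u * (Q : ℂ) ^ s‖ ^ 2 = Q ^ (w + s)
          then xx (u * (Q : ℂ) ^ s) else 0)) =
          if u = z then (if ‖u * (Q : ℂ) ^ s‖ ^ 2 = Q ^ (w + s) then c z y else 0) else 0 := by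
        intro u _
        split_ifs with h3 h4 h4
        · rw [hxx2, if_pos h3, mul_div_cancel_right₀ _ (pow_ne_zero s hqc), h4,
            hc2 z _ (hc1 z y)]
        · rw [hxx2, if_pos h3, mul_div_cancel_right₀ _ (pow_ne_zero s hqc),
            hc3 z u h4 _ (hc1 u y)]
        · rw [map_zero, map_zero]
        · rw [map_zero, map_zero]
      rw [Finset.sum_congr rfl h2, Finset.sum_ite_eq']
      by_cases hzy : c z y = 0
      · rw [hzy]
        simp
      · have hzΛ : z ∈ Λ := by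
          by_contra h0
          apply hzy
          rw [hc4 z h0, LinearMap.zero_apply]
        obtain ⟨j, hj⟩ := hint z y hzy
        have h3 : ¬ -(s : ℤ) < j := by
          intro h3
          apply hzy
          apply hy z
          rw [hj, hlt]
          omega
        rw [hj, hlt] at hz
        obtain rfl : j = -(s : ℤ) := by omega
        have h4 : ‖z * (Q : ℂ) ^ s‖ ^ 2 = Q ^ (w + s) := by
          have h5 := hnorm s (z * (Q : ℂ) ^ s)
          rw [mul_div_cancel_right₀ _ (pow_ne_zero s hqc), hj] at h5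
          have h6 : Q ^ (w + s) = Q ^ (w + -(s : ℤ)) * Q ^ (2 * s : ℤ) := by
            rw [← zpow_add₀ hqm0]
            congr 1
            ring
          rw [h6, h5, mul_assoc, ← zpow_add₀ hqm0, neg_add_cancel, zpow_zero, mul_one]
        rw [if_pos hzΛ, if_pos h4]
  · intro s z x hx hx' hzx
    have hpow : ∀ k : ℕ, (S ^ k) x - z ^ k • x ∈ Fil (s - 1) := by
      intro k
      induction k with
      | zero => simp
      | succ k ih =>
        have h1 : (S ^ (k + 1)) x - z ^ (k + 1) • x =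
            S ((S ^ k) x - z ^ k • x) + z ^ k • (S x - z • x) := by
          rw [pow_succ', Module.End.mul_apply, map_sub, map_smul, smul_sub, smul_smul, ← pow_succ]
          abel
        rw [h1]
        exact Submodule.add_mem _ (hstab _ _ ih) (Submodule.smul_mem _ _ hzx)
    have h1 := hpow m
    rw [hmem] at hx'
    push Not at hx'
    obtain ⟨u, hu, hux⟩ := hx'
    obtain ⟨j, hj⟩ := hint u x hux
    have h2 : ¬ s < j := by
      intro h2
      apply hux
      apply hx u
      rw [hj, hlt]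
      omega
    have h3 : (S ^ m) (c u x) = z ^ m • c u x := by
      have h4 := h1 u hu
      have h5 : ∀ k : ℕ, c u ((S ^ k) x) = (S ^ k) (c u x) := fun k => comm_pow (hcS u) k x
      rw [map_sub, map_smul, h5, sub_eq_zero] at h4
      exact h4
    rw [hj, hlt] at hu
    obtain rfl : j = s := by omega
    have h4 : u = z ^ m := by
      by_contra hne
      have h5 : c u x ∈ (S ^ m).maxGenEigenspace (z ^ m) := by
        rw [Module.End.mem_maxGenEigenspace]
        refine ⟨1, ?_⟩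
        rw [pow_one, LinearMap.sub_apply, h3]
        simp
      have h6 := hc3 u (z ^ m) (Ne.symm hne) _ h5
      rw [hc2 u _ (hc1 u x)] at h6
      exact hux h6
    rw [h4, norm_pow, hQ, pow_zpow, ← pow_mul, mul_comm, pow_mul] at hj
    exact (pow_left_inj₀ (by positivity) (by positivity) hm.ne').1 hj

end Pool.Agent.D0H78.WM
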