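import Mathlib

/-!
# The logarithm as a combination of powers
-/

set_option autoImplicit false

namespace Pool.Agent.D0H78.WM

open Polynomial

theorem log_comb (D : ℕ) : ∃ a : ℕ → ℚ, ∀ j < D,
    ∑ k ∈ Finset.range D, a k * (k : ℚ) ^ j = if j = 1 then 1 else 0 := by
  refine ⟨fun k => (Lagrange.basis (Finset.range D) (fun k : ℕ => (k : ℚ)) k).coeff 1,
    fun j hj => ?_⟩
  have hinj : Set.InjOn (fun k : ℕ => (k : ℚ)) (Finset.range D) :=
    fun a _ b _ h => Nat.cast_injective (R := ℚ) h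
  have h1 : (X ^ j : ℚ[X]) = Lagrange.interpolate (Finset.range D) (fun k : ℕ => (k : ℚ))
      fun k => (X ^ j : ℚ[X]).eval (k : ℚ) := by
    apply Lagrange.eq_interpolate hinj
    rw [degree_X_pow, Finset.card_range]
    exact_mod_cast hj
  have h2 := congrArg (fun p : ℚ[X] => p.coeff 1) h1
  simp only [Lagrange.interpolate_apply, finsetSum_coeff, coeff_C_mul, eval_pow, eval_X,
    coeff_X_pow] at h2
  rw [eq_comm]
  convert h2 using 1
  · simp [eq_comm]
  · exact Finset.sum_congr rfl fun k _ => mul_comm _ _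

section mat

variable {F : Type} [Field F] [CharZero F] {n : ℕ}

/-- the exponential function of `k Z`, if `Z ^ D = 0` -/
noncomputable def ex (D : ℕ) (Z : Matrix (Fin n) (Fin n) F) (k : F) :
    Matrix (Fin n) (Fin n) F := ∑ j ∈ Finset.range D, (k ^ j * ((j.factorial : F))⁻¹) • Z ^ j

theorem exp_eq_ex {D : ℕ} {Z : Matrix (Fin n) (Fin n) F} (hZ : Z ^ D = 0) (k : F) :
    IsNilpotent.exp (k • Z) = ex D Z k := by
  have h : (k • Z) ^ D = 0 := by rw [_root_.smul_pow, hZ, smul_zero]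
  rw [IsNilpotent.exp_eq_sum h, ex]
  refine Finset.sum_congr rfl fun j _ => ?_
  rw [_root_.smul_pow, mul_comm, mul_smul]
  have h1 : ∀ (c : ℚ) (A : Matrix (Fin n) (Fin n) F), c • A = (c : F) • A := by
    intro c A
    ext i j
    rw [Matrix.smul_apply, Matrix.smul_apply, smul_eq_mul, Rat.smul_def]
  rw [h1]
  congr 1
  push_cast
  rfl

theorem comb_ex {D : ℕ} (hD : 2 ≤ D) {a : ℕ → ℚ} (ha : ∀ j < D,
    ∑ k ∈ Finset.range D, a k * (k : ℚ) ^ j = if j = 1 then 1 else 0)
    (Z : Matrix (Fin n) (Fin n) F) (c : F) :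
    ∑ k ∈ Finset.range D, (a k : F) • ex D Z (k * c) = c • Z := by
  unfold ex
  simp only [Finset.smul_sum, smul_smul]
  rw [Finset.sum_comm]
  have h1 : ∀ j ∈ Finset.range D, ∑ k ∈ Finset.range D,
      ((a k : F) * (((k : F) * c) ^ j * ((j.factorial : F))⁻¹)) • Z ^ j =
      if j = 1 then c • Z else 0 := by
    intro j hj
    rw [← Finset.sum_smul]
    have h2 : ∑ k ∈ Finset.range D, (a k : F) * (((k : F) * c) ^ j * ((j.factorial : F))⁻¹) =
        (c ^ j * ((j.factorial : F))⁻¹) *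
          (((∑ k ∈ Finset.range D, a k * (k : ℚ) ^ j : ℚ)) : F) := by
      push_cast
      rw [Finset.mul_sum]
      refine Finset.sum_congr rfl fun k _ => ?_
      rw [mul_pow]
      ring
    rw [h2, ha j (Finset.mem_range.1 hj)]
    split_ifs with h3
    · subst h3
      simp
    · simp
  rw [Finset.sum_congr rfl h1, Finset.sum_ite_eq', if_pos (Finset.mem_range.2 (by omega))]

omit [CharZero F] in
theorem ex_map {F' : Type} [Field F'] (e : F →+* F') (D : ℕ)
    (Z : Matrix (Fin n) (Fin n) F) (k : F) : (ex D Z k).map e = ex D (Z.map e) (e k) := by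
  unfold ex
  have h1 : ∀ A : Matrix (Fin n) (Fin n) F, A.map e = e.mapMatrix A := fun A => rfl
  rw [h1, map_sum]
  refine Finset.sum_congr rfl fun j _ => ?_
  have h2 : e.mapMatrix ((k ^ j * ((j.factorial : F))⁻¹) • Z ^ j) =
      (e k ^ j * ((j.factorial : F'))⁻¹) • e.mapMatrix (Z ^ j) := by
    ext a b
    simp [Matrix.smul_apply]
  rw [h2, map_pow]
  rfl

/-- the relation between Frobenius and the monodromy operator -/
theorem rel_of_exp {D : ℕ} (hD : 2 ≤ D) {Z S S' : Matrix (Fin n) (Fin n) F} (hSS : S * S' = 1)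
    {c q : F} (hc : c ≠ 0) (hq : q ≠ 0)
    (h : ∀ k : ℕ, S' * ex D Z (k * c) * S = ex D Z (q * (k * c))) :
    S * Z = q⁻¹ • (Z * S) := by
  obtain ⟨a, ha⟩ := log_comb D
  have h1 := comb_ex hD ha Z c
  have h2 := comb_ex hD ha Z (q * c)
  have h3 : S' * (∑ k ∈ Finset.range D, (a k : F) • ex D Z (k * c)) * S =
      ∑ k ∈ Finset.range D, (a k : F) • ex D Z (k * (q * c)) := by
    rw [Finset.mul_sum, Finset.sum_mul]
    refine Finset.sum_congr rfl fun k _ => ?_
    rw [mul_smul_comm, smul_mul_assoc, h]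
    congr 2
    ring
  rw [h1, h2, mul_smul_comm, smul_mul_assoc, mul_comm q c, mul_smul] at h3
  have h4 : S' * Z * S = q • Z := smul_right_injective _ hc h3
  have h5 : Z * S = q • (S * Z) := by
    calc Z * S = S * (S' * Z * S) := by rw [← mul_assoc, ← mul_assoc, hSS, one_mul]
      _ = q • (S * Z) := by rw [h4, mul_smul_comm]
  rw [h5, smul_smul, inv_mul_cancel₀ hq, one_smul]

end mat

end Pool.Agent.D0H78.WM
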