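import Pool.Agent.D0H78.WM.Md
import Pool.Agent.D0H78.WM.Fil2
import Pool.Agent.D0H78.WM.Mon
import Pool.Agent.R401.Tr10

/-!
# Weight-monodromy for two representations: the local part
-/

set_option autoImplicit false
set_option maxHeartbeats 400000

namespace Pool.Agent.D0H78.WM

open NumberField Filter Topology IsDedekindDomain Pool.Agent.W401.Cheb Pool.Agent.R401.Sup
open Pool.Agent.W569.FM Pool.Agent.R401.Img Pool.Agent.R401.Sup3 Pool.Agent.R401.Sup4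
open Pool.Agent.R401.Tr3 Pool.Agent.R401.Tr4 Pool.Agent.R401.Tr5 Module Matrix
open Pool.Agent.R401.Tr8 Pool.Agent.R401.Tr9

variable {K : Type} [Field K] [NumberField K] {ℓ : ℕ} [Fact ℓ.Prime] {n m : ℕ}

/-- `N` is the monodromy operator -/
def IsMon (ρ : GK K →* GL (Fin n) ℚ_[ℓ]) (P : Ideal (OO K)) (t : GK K → ℚ_[ℓ])
    (N : Matrix (Fin n) (Fin n) ℚ_[ℓ]) : Prop :=
  IsNilpotent N ∧ ∃ H : Subgroup (GK K), IsOpen (H : Set (GK K)) ∧
    ∀ τ ∈ H, InInertia P τ → mt ρ τ = IsNilpotent.exp (t τ • N)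

section tt

variable {P : Ideal (OO K)} {t : GK K → ℚ_[ℓ]}
  (ht : ∀ σ τ, InInertia P σ → InInertia P τ → t (σ * τ) = t σ + t τ)

include ht in
theorem t_one : t 1 = 0 := by
  have h := ht 1 1 (IG P).one_mem (IG P).one_mem
  rw [mul_one] at h
  linear_combination -h

include ht in
theorem t_pow {τ : GK K} (hτ : InInertia P τ) (k : ℕ) : t (τ ^ k) = k * t τ := by
  induction k with
  | zero => rw [pow_zero, t_one ht, Nat.cast_zero, zero_mul]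
  | succ k ih =>
    rw [pow_succ, ht _ _ ((IG P).pow_mem (show τ ∈ IG P from hτ) k) hτ, ih]
    push_cast
    ring

end tt

section rel

variable {P : Ideal (OO K)} {t : GK K → ℚ_[ℓ]}
  (ht : ∀ σ τ, InInertia P σ → InInertia P τ → t (σ * τ) = t σ + t τ)

theorem pow_mt {ρ : GK K →* GL (Fin n) ℚ_[ℓ]} {N : Matrix (Fin n) (Fin n) ℚ_[ℓ]}
    (ht : ∀ σ τ, InInertia P σ → InInertia P τ → t (σ * τ) = t σ + t τ)
    {H : Subgroup (GK K)} (hH : ∀ τ ∈ H, InInertia P τ → mt ρ τ = IsNilpotent.exp (t τ • N))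
    {D : ℕ} (hND : N ^ D = 0) {τ : GK K} (hτ : InInertia P τ) (hτH : τ ∈ H) (k : ℕ) :
    mt ρ (τ ^ k) = ex D N (k * t τ) := by
  rw [hH _ (H.pow_mem hτH k) ((IG P).pow_mem (show τ ∈ IG P from hτ) k), t_pow ht hτ,
    exp_eq_ex hND]

/-- the relation between the Frobenius elements and the monodromy operator -/
theorem mon_rel {ρ : GK K →* GL (Fin n) ℚ_[ℓ]} (hρ : Continuous ρ)
    {N : Matrix (Fin n) (Fin n) ℚ_[ℓ]}
    (ht : ∀ σ τ, InInertia P σ → InInertia P τ → t (σ * τ) = t σ + t τ)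
    {H : Subgroup (GK K)} (hH : ∀ τ ∈ H, InInertia P τ → mt ρ τ = IsNilpotent.exp (t τ • N))
    {D : ℕ} (hD : 2 ≤ D) (hND : N ^ D = 0) (hP : P.IsMaximal) {q : ℕ} (hq : 2 ≤ q)
    {σ : GK K} (hσ : FrobAt q P σ) (hℓP : (ℓ : OO K) ∉ P) {Hs : Subgroup (GK K)}
    (hHn : Hs.Normal) (hHo : IsOpen (Hs : Set (GK K)))
    (hHs : ∀ x ∈ Hs, Tendsto (fun k : ℕ => mh ρ x ^ (ℓ ^ k)) atTop (𝓝 1))
    {τ : GK K} (hτ : InInertia P τ) (hτH : τ ∈ H) (hτs : τ ∈ Hs) (ht0 : t τ ≠ 0) :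
    mt ρ σ⁻¹ * N = (q : ℚ_[ℓ])⁻¹ • (N * mt ρ σ⁻¹) := by
  obtain ⟨l, hl, hlP⟩ := Pool.Agent.R703.FM.exists_prime_mem P hP
  have hne : ℓ ≠ l := by
    rintro rfl
    exact hℓP hlP
  have hSS : mt ρ σ⁻¹ * mt ρ σ = 1 := by
    rw [← mt_mul, inv_mul_cancel, ← mh_apply, map_one]
  refine rel_of_exp hD (S' := mt ρ σ) hSS ht0 (Nat.cast_ne_zero.2 (by omega)) fun k => ?_
  rw [← pow_mt ht hH hND hτ hτH k]
  have h1 := tame_rel' (mh ρ) (Units.continuous_val.comp hρ) Hs hHo hHs hl hne (by omega : 1 ≤ q)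
    hP hlP (τ := τ ^ k) (σ := σ) (Hs.pow_mem hτs k)
    ((IG P).pow_mem (show τ ∈ IG P from hτ) k) hσ
  rw [mh_apply, mh_apply, mt_mul, mt_mul, ← Pool.Agent.R401.Tr9.mt_pow, ← pow_mul] at h1
  rw [h1, pow_mt ht hH hND hτ hτH]
  congr 1
  push_cast
  ring

end rel

end Pool.Agent.D0H78.WM
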