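import Pool.Agent.D0H78.WM.Pure
import Pool.Agent.D0H78.WM.Fil

/-!
# The ranks of the powers of the monodromy operator
-/

set_option autoImplicit false

namespace Pool.Agent.D0H78.WM

open Module

section rankmap

/-- the rank of a matrix does not change under an extension of the field -/
theorem rank_map {F F' : Type} [Field F] [Field F'] {n : ℕ} (e : F →+* F')
    (A : Matrix (Fin n) (Fin n) F) : (A.map e).rank = A.rank := by
  classical
  obtain ⟨P, R, f, hP, hR, hPR⟩ := Matrix.exists_rank_normal_form A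
  have h1 := congrArg e.mapMatrix hPR
  rw [map_mul, map_mul] at h1
  have hP' : IsUnit (e.mapMatrix P) := hP.map e.mapMatrix
  have hR' : IsUnit (e.mapMatrix R) := hR.map e.mapMatrix
  have h2 : (e.mapMatrix P * e.mapMatrix A * e.mapMatrix R).rank = (A.map e).rank := by
    rw [Matrix.rank_mul_eq_left_of_isUnit_det _ _ ((Matrix.isUnit_iff_isUnit_det _).1 hR'),
      Matrix.rank_mul_eq_right_of_isUnit_det _ _ ((Matrix.isUnit_iff_isUnit_det _).1 hP')]
    rfl
  have h3 : e.mapMatrix ((Matrix.fromBlocks (1 : Matrix (Fin A.rank) (Fin A.rank) F) 0 0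
      (0 : Matrix (Fin (Fintype.card (Fin n) - A.rank))
        (Fin (Fintype.card (Fin n) - A.rank)) F)).submatrix f f) =
      (Matrix.diagonal (Sum.elim (fun _ : Fin A.rank => (1 : F'))
        (fun _ : Fin (Fintype.card (Fin n) - A.rank) => (0 : F')))).submatrix f f := by
    rw [← Matrix.fromBlocks_diagonal, Matrix.diagonal_one, Matrix.diagonal_zero,
      RingHom.mapMatrix_apply, ← Matrix.submatrix_map, Matrix.fromBlocks_map]
    simp
  rw [h3] at h1
  rw [← h2, h1, Matrix.rank_submatrix, Matrix.rank_diagonal]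
  rw [Fintype.card_congr (Equiv.subtypeSum), Fintype.card_sum]
  simp

end rankmap

variable {M M' : Type} [AddCommGroup M] [Module ℂ M] [AddCommGroup M'] [Module ℂ M']

theorem finrank_sup [FiniteDimensional ℂ M] (s : Finset ℂ) (p : ℂ → Submodule ℂ M)
    (h : s.SupIndep p) : finrank ℂ (s.sup p : Submodule ℂ M) = ∑ i ∈ s, finrank ℂ (p i) := by
  classical
  induction s using Finset.induction_on with
  | empty => simp
  | insert a s ha ih =>
    rw [Finset.sup_insert, Finset.sum_insert ha, ← ih (h.subset (Finset.subset_insert _ _))]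
    have hd : Disjoint (p a) (s.sup p) :=
      h (Finset.subset_insert _ _) (Finset.mem_insert_self _ _) ha
    have h1 := Submodule.finrank_sup_add_finrank_inf_eq (p a) (s.sup p)
    rw [hd.eq_bot, finrank_bot, add_zero] at h1
    exact h1

theorem rank_eq_sum [FiniteDimensional ℂ M] {S N : End ℂ M} {q : ℝ} (hq : q ≠ 0)
    (h : ∀ x, S (N x) = (q : ℂ)⁻¹ • N (S x)) (j : ℕ) (Λ : Finset ℂ)
    (hΛ : ∀ z, z ∉ Λ → S.maxGenEigenspace z = ⊥) :
    finrank ℂ (LinearMap.range (N ^ j)) =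
      ∑ z ∈ Λ, finrank ℂ ((S.maxGenEigenspace z).map (N ^ j)) := by
  classical
  have hqc : (q : ℂ) ^ j ≠ 0 := pow_ne_zero _ (by exact_mod_cast hq)
  have h1 : iSupIndep fun z => S.maxGenEigenspace (z / (q : ℂ) ^ j) :=
    (S.independent_maxGenEigenspace).comp (f := fun z => z / (q : ℂ) ^ j)
      (fun a b hab => (div_left_inj' hqc).1 hab)
  have h2 : iSupIndep fun z => (S.maxGenEigenspace z).map (N ^ j) := by
    refine h1.mono fun z => ?_
    rintro _ ⟨x, hx, rfl⟩
    exact lower_pow hq h j z x hx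
  rw [← finrank_sup Λ _ (iSupIndep.supIndep' Λ h2)]
  have h3 : LinearMap.range (N ^ j) = Λ.sup fun z => (S.maxGenEigenspace z).map (N ^ j) := by
    rw [← Submodule.map_top, ← Module.End.iSup_maxGenEigenspace_eq_top S, Submodule.map_iSup]
    apply le_antisymm
    · refine iSup_le fun z => ?_
      by_cases hz : z ∈ Λ
      · exact Finset.le_sup (f := fun z => (S.maxGenEigenspace z).map (N ^ j)) hz
      · rw [hΛ z hz, Submodule.map_bot]
        exact bot_le
    · refine Finset.sup_le fun z _ => ?_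
      exact le_iSup (fun z => (S.maxGenEigenspace z).map (N ^ j)) z
  rw [h3]

theorem finrank_map_inj [FiniteDimensional ℂ M] (f : End ℂ M) (V : Submodule ℂ M)
    (h : ∀ x ∈ V, f x = 0 → x = 0) : finrank ℂ (V.map f) = finrank ℂ V := by
  have h1 : LinearMap.range (f.domRestrict V) = V.map f := by
    ext y
    simp [Submodule.mem_map]
  rw [← h1]
  apply LinearMap.finrank_range_of_inj
  rw [← LinearMap.ker_eq_bot, eq_bot_iff]
  rintro ⟨x, hx⟩ hxf
  have h2 := h x hx hxf
  exact (Submodule.mem_bot _).2 (Subtype.ext h2)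

theorem finrank_map_high [FiniteDimensional ℂ M] {S N : End ℂ M} {q : ℝ} {w : ℤ}
    (hp : Pure q w S N) {j i : ℕ} (hji : j ≤ i) {z : ℂ} (hz : ‖z‖ ^ 2 = q ^ (w + i)) :
    finrank ℂ ((S.maxGenEigenspace z).map (N ^ j)) = finrank ℂ (S.maxGenEigenspace z) := by
  apply finrank_map_inj
  intro x hx hx0
  apply hp.inj i z hz x hx
  obtain ⟨c, rfl⟩ := Nat.exists_eq_add_of_le hji
  rw [add_comm, pow_add, Module.End.mul_apply, hx0, map_zero]

theorem finrank_map_low [FiniteDimensional ℂ M] {S N : End ℂ M} {q : ℝ} (hq : 0 < q) {w : ℤ}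
    (h : ∀ x, S (N x) = (q : ℂ)⁻¹ • N (S x))
    (hp : Pure q w S N) {j c : ℕ} {z : ℂ}
    (hz : ‖z * (q : ℂ) ^ c‖ ^ 2 = q ^ (w + (j + c : ℕ))) :
    finrank ℂ ((S.maxGenEigenspace z).map (N ^ j)) =
      finrank ℂ (S.maxGenEigenspace (z * (q : ℂ) ^ c)) := by
  have hqc : (q : ℂ) ≠ 0 := by exact_mod_cast hq.ne'
  have h1 : (S.maxGenEigenspace z).map (N ^ j) =
      (S.maxGenEigenspace (z * (q : ℂ) ^ c)).map (N ^ (j + c)) := by
    apply le_antisymm
    · rintro _ ⟨x, hx, rfl⟩
      have h2 : (N ^ j) x ∈ S.maxGenEigenspace ((z * (q : ℂ) ^ c) / (q : ℂ) ^ (j + c)) := by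
        have h3 := lower_pow hq.ne' h j z x hx
        have h4 : (z * (q : ℂ) ^ c) / (q : ℂ) ^ (j + c) = z / (q : ℂ) ^ j := by
          rw [pow_add]
          field_simp
        rwa [h4]
      obtain ⟨y, hy, hyx⟩ := hp.surj (j + c) _ hz _ h2
      exact ⟨y, hy, hyx⟩
    · rintro _ ⟨x, hx, rfl⟩
      refine ⟨(N ^ c) x, ?_, ?_⟩
      · have h3 := lower_pow hq.ne' h c _ x hx
        rwa [mul_div_assoc, div_self (pow_ne_zero _ hqc), mul_one] at h3
      · rw [pow_add, Module.End.mul_apply]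
  rw [h1]
  apply finrank_map_inj
  intro x hx hx0
  exact hp.inj (j + c) _ hz x hx hx0

/-- **The ranks of the powers of the monodromy operator** -/
theorem rk [FiniteDimensional ℂ M] [FiniteDimensional ℂ M'] {S N : End ℂ M} {S' N' : End ℂ M'}
    {q : ℝ} (hq : 1 < q) {w : ℤ}
    (h : ∀ x, S (N x) = (q : ℂ)⁻¹ • N (S x)) (h' : ∀ x, S' (N' x) = (q : ℂ)⁻¹ • N' (S' x))
    (hp : Pure q w S N) (hp' : Pure q w S' N')
    (hd : ∀ z : ℂ, ‖z‖ ^ 2 ≠ q ^ w →
      finrank ℂ (S.maxGenEigenspace z) = finrank ℂ (S'.maxGenEigenspace z))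
    {j : ℕ} (hj : 0 < j) :
    finrank ℂ (LinearMap.range (N ^ j)) = finrank ℂ (LinearMap.range (N' ^ j)) := by
  classical
  have hq0 : 0 < q := by linarith
  have hfin : ∀ {X : Type} [AddCommGroup X] [Module ℂ X] [FiniteDimensional ℂ X] (T : End ℂ X),
      ∃ Λ : Finset ℂ, ∀ z, z ∉ Λ → T.maxGenEigenspace z = ⊥ := by
    intro X _ _ _ T
    have h1 : {z | T.HasEigenvalue z}.Finite := T.finite_hasEigenvalue
    refine ⟨h1.toFinset, fun z hz => ?_⟩
    rw [Set.Finite.mem_toFinset] at hz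
    by_contra hne
    apply hz
    change T.HasEigenvalue z
    exact (show T.HasUnifEigenvalue z ⊤ from hne).lt zero_lt_one
  obtain ⟨Λ, hΛ⟩ := hfin S
  obtain ⟨Λ', hΛ'⟩ := hfin S'
  rw [rank_eq_sum hq0.ne' h j (Λ ∪ Λ') fun z hz => hΛ z fun hz' => hz (Finset.mem_union_left _ hz'),
    rank_eq_sum hq0.ne' h' j (Λ ∪ Λ') fun z hz => hΛ' z fun hz' =>
      hz (Finset.mem_union_right _ hz')]
  refine Finset.sum_congr rfl fun z _ => ?_
  by_cases hzi : ∃ i : ℤ, ‖z‖ ^ 2 = q ^ (w + i)
  · obtain ⟨i, hi⟩ := hzi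
    by_cases hij : (j : ℤ) ≤ i
    · obtain ⟨I, rfl⟩ := Int.eq_ofNat_of_zero_le ((Int.natCast_nonneg j).trans hij)
      rw [finrank_map_high hp (by exact_mod_cast hij) hi,
        finrank_map_high hp' (by exact_mod_cast hij) hi]
      apply hd
      rw [hi]
      intro h3
      have h4 := zpow_inj hq h3
      omega
    · obtain ⟨c, hc⟩ := Int.eq_ofNat_of_zero_le (show (0 : ℤ) ≤ j - i by omega)
      have h3 : ‖z * (q : ℂ) ^ c‖ ^ 2 = q ^ (w + (j + c : ℕ)) := by
        rw [norm_mul, mul_pow, hi, norm_pow, Complex.norm_real, Real.norm_of_nonneg hq0.le,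
          ← pow_mul, ← zpow_natCast q (c * 2), ← zpow_add₀ hq0.ne']
        congr 1
        have : ((c : ℕ) : ℤ) = j - i := hc.symm
        push_cast
        linarith
      rw [finrank_map_low hq0 h hp h3, finrank_map_low hq0 h' hp' h3]
      apply hd
      rw [h3]
      intro h4
      have h5 := zpow_inj hq h4
      omega
  · have h1 : ∀ {X : Type} [AddCommGroup X] [Module ℂ X] {T O : End ℂ X}, Pure q w T O →
        T.maxGenEigenspace z = ⊥ := by
      intro X _ _ T O hTO
      rw [eq_bot_iff]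
      intro x hx
      by_contra hx0
      exact hzi (hTO.int z ⟨x, hx, fun h0 => hx0 (by rw [h0]; exact Submodule.zero_mem _)⟩)
    rw [h1 hp, h1 hp', Submodule.map_bot, Submodule.map_bot, finrank_bot, finrank_bot]

end Pool.Agent.D0H78.WM
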