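import Pool.Agent.D0H78.WM.Md
import Pool.Agent.R401.Img

/-!
# Semisimple representations stay semisimple over the complex numbers and over normal subgroups
-/

set_option autoImplicit false
set_option maxHeartbeats 400000

namespace Pool.Agent.D0H78.WM

open Module Pool.Agent.R401.Img

section mk

variable {Γ : Type} [Group Γ] {n : ℕ} (X : Γ →* Matrix (Fin n) (Fin n) ℂ)

/-- the submodule given by a stable subspace -/
def mkS (W : Submodule ℂ (Md X)) (hW : ∀ g, ∀ x ∈ W, Matrix.toLin' (X g) x ∈ W) :
    Submodule (MonoidAlgebra ℂ Γ) (Md X) where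
  carrier := W
  add_mem' := W.add_mem
  zero_mem' := W.zero_mem
  smul_mem' := by
    intro r x hx
    change al X r x ∈ W
    induction r using MonoidAlgebra.induction_on with
    | of g =>
      rw [al_of]
      exact hW g x hx
    | add r s hr hs =>
      rw [map_add, LinearMap.add_apply]
      exact W.add_mem hr hs
    | smul c r hr =>
      rw [map_smul, LinearMap.smul_apply]
      exact W.smul_mem c hr

theorem stab (W : Submodule (MonoidAlgebra ℂ Γ) (Md X)) (g : Γ) (x : Md X) (hx : x ∈ W) :
    Matrix.toLin' (X g) x ∈ W := by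
  have h := W.smul_mem (MonoidAlgebra.of ℂ Γ g) hx
  rw [smul_def, al_of] at h
  exact h

end mk

section cliff

variable {G : Type} [Group G] {n : ℕ} (X : G →* Matrix (Fin n) (Fin n) ℂ) (U : Subgroup G)

theorem toLin_mul (a b : G) (x : Fin n → ℂ) : Matrix.toLin' (X (a * b)) x =
    Matrix.toLin' (X a) (Matrix.toLin' (X b) x) := by
  rw [map_mul, Matrix.toLin'_mul, LinearMap.comp_apply]

theorem toLin_one (x : Fin n → ℂ) : Matrix.toLin' (X 1) x = x := by
  rw [map_one, Matrix.toLin'_one, LinearMap.id_apply]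

/-- the conjugate of a stable subspace -/
noncomputable def mv [hU : U.Normal] (g : G) (W : Submodule (MonoidAlgebra ℂ U) (Md (X.comp U.subtype))) :
    Submodule (MonoidAlgebra ℂ U) (Md (X.comp U.subtype)) :=
  mkS (X.comp U.subtype) ((W.restrictScalars ℂ).comap (Matrix.toLin' (X g))) (by
    intro u x hx
    have h1 : Matrix.toLin' (X g) (Matrix.toLin' (X u) x) =
        Matrix.toLin' (X (g * u * g⁻¹)) (Matrix.toLin' (X g) x) := by
      rw [← toLin_mul, ← toLin_mul]
      congr 3
      group
    change Matrix.toLin' (X g) (Matrix.toLin' (X u) x) ∈ W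
    rw [h1]
    exact stab (X.comp U.subtype) W ⟨g * u * g⁻¹, hU.conj_mem _ u.2 g⟩ _ hx)

theorem mem_mv [U.Normal] (g : G) (W : Submodule (MonoidAlgebra ℂ U) (Md (X.comp U.subtype)))
    (x : Md (X.comp U.subtype)) : x ∈ mv X U g W ↔ (Matrix.toLin' (X g) x : Fin n → ℂ) ∈ W :=
  Iff.rfl

/-- the conjugation is an automorphism of the lattice -/
noncomputable def mvI [U.Normal] (g : G) : Submodule (MonoidAlgebra ℂ U) (Md (X.comp U.subtype)) ≃o
    Submodule (MonoidAlgebra ℂ U) (Md (X.comp U.subtype)) where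
  toFun := mv X U g
  invFun := mv X U g⁻¹
  left_inv W := by
    ext x
    have h : Matrix.toLin' (X g) (Matrix.toLin' (X g⁻¹) x) = x := by
      rw [← toLin_mul, mul_inv_cancel, toLin_one]
    exact Iff.of_eq (congrArg (fun y : Md (X.comp U.subtype) => y ∈ W) h)
  right_inv W := by
    ext x
    have h : Matrix.toLin' (X g⁻¹) (Matrix.toLin' (X g) x) = x := by
      rw [← toLin_mul, inv_mul_cancel, toLin_one]
    exact Iff.of_eq (congrArg (fun y : Md (X.comp U.subtype) => y ∈ W) h)
  map_rel_iff' := by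
    intro W W'
    constructor
    · intro h x hx
      have h1 : (Matrix.toLin' (X g⁻¹) x : Fin n → ℂ) ∈ mv X U g W := by
        change (Matrix.toLin' (X g) (Matrix.toLin' (X g⁻¹) x) : Fin n → ℂ) ∈ W
        rw [← toLin_mul, mul_inv_cancel, toLin_one]
        exact hx
      have h2 := h h1
      change (Matrix.toLin' (X g) (Matrix.toLin' (X g⁻¹) x) : Fin n → ℂ) ∈ W' at h2
      rwa [← toLin_mul, mul_inv_cancel, toLin_one] at h2
    · intro h x hx
      exact h hx

/-- **Clifford's theorem** -/
theorem clifford [U.Normal] (h : IsSemisimpleModule (MonoidAlgebra ℂ G) (Md X)) :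
    IsSemisimpleModule (MonoidAlgebra ℂ U) (Md (X.comp U.subtype)) := by
  have hart : IsArtinian (MonoidAlgebra ℂ U) (Md (X.comp U.subtype)) := isArtinian_of_tower ℂ
    inferInstance
  set S : Submodule (MonoidAlgebra ℂ U) (Md (X.comp U.subtype)) := sSup {a | IsAtom a} with hS
  have hstab : ∀ g, ∀ x ∈ S, (Matrix.toLin' (X g) x : Fin n → ℂ) ∈ S := by
    intro g
    have h1 : S ≤ mvI X U g S := by
      rw [hS]
      refine sSup_le fun a ha => ?_
      have h2 : IsAtom ((mvI X U g).symm a) := ((mvI X U g).symm.isAtom_iff a).2 ha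
      have h3 : (mvI X U g).symm a ≤ S := le_sSup h2
      exact (OrderIso.symm_apply_le _).1 h3
    intro x hx
    exact h1 hx
  apply IsSemisimpleModule.of_sSup_simples_eq_top
  have hST : {m : Submodule (MonoidAlgebra ℂ U) (Md (X.comp U.subtype)) |
      IsSimpleModule (MonoidAlgebra ℂ U) m} = {a | IsAtom a} := by
    ext a
    exact isSimpleModule_iff_isAtom
  rw [hST, ← hS]
  obtain ⟨C, hC⟩ := exists_isCompl (mkS X (S.restrictScalars ℂ) hstab)
  set C' : Submodule (MonoidAlgebra ℂ U) (Md (X.comp U.subtype)) :=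
    mkS (X.comp U.subtype) (C.restrictScalars ℂ) (fun u x hx => stab X C u x hx) with hC'
  have hbot : C' = ⊥ := by
    by_contra hne
    obtain ⟨a, ha, haC⟩ := (IsAtomic.eq_bot_or_exists_atom_le C').resolve_left hne
    have haS : a ≤ S := le_sSup ha
    apply ha.1
    rw [eq_bot_iff]
    intro x hx
    have h1 : (x : Md X) ∈ mkS X (S.restrictScalars ℂ) hstab ⊓ C := ⟨haS hx, haC hx⟩
    rw [hC.inf_eq_bot] at h1
    exact h1
  rw [eq_top_iff]
  intro x _
  have h1 : (x : Md X) ∈ mkS X (S.restrictScalars ℂ) hstab ⊔ C := by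
    rw [hC.sup_eq_top]
    trivial
  obtain ⟨y, hy, z, hz, hyz⟩ := (Submodule.mem_sup (R := MonoidAlgebra ℂ G) (M := Md X)).1 h1
  have h2 : (z : Md (X.comp U.subtype)) ∈ C' := hz
  rw [hbot] at h2
  have h3 : z = 0 := h2
  have h4 : y = x := by
    rw [← hyz, h3]
    exact (add_zero y).symm
  rw [← h4]
  exact hy

end cliff

section base

variable {k : Type} [Field k] {G : Type} [Group G] {n : ℕ}

/-- the complexification -/
noncomputable def cx (ρ : G →* GL (Fin n) k) (e : k →+* ℂ) : G →* Matrix (Fin n) (Fin n) ℂ :=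
  (e.mapMatrix.toMonoidHom).comp ((Units.coeHom _).comp ρ)

theorem cx_apply (ρ : G →* GL (Fin n) k) (e : k →+* ℂ) (g : G) : cx ρ e g = (mt ρ g).map e := rfl

/-- **Complexification of a semisimple representation** -/
theorem semisimple_cx [CharZero k] (ρ : G →* GL (Fin n) k) (hss : SS ρ) (e : k →+* ℂ) :
    IsSemisimpleModule (MonoidAlgebra ℂ G) (Md (cx ρ e)) := by
  classical
  set X := cx ρ e with hX
  -- a basis of the enveloping algebra
  obtain ⟨r, f, hf1, hf2, hf3⟩ : ∃ (r : ℕ) (f : Fin r → End k (Fin n → k)),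
      (∀ i, f i ∈ Set.range (Pool.Agent.R401.Img.act ρ)) ∧ Submodule.span k (Set.range f) =
        Submodule.span k (Set.range (Pool.Agent.R401.Img.act ρ)) ∧ LinearIndependent k f :=
    ⟨_, Submodule.exists_fun_fin_finrank_span_eq k (Set.range (Pool.Agent.R401.Img.act ρ))⟩
  choose g hg using hf1
  have hchar : ∀ m : ℕ, 0 < m → m ≤ finrank k (Fin n → k) → (m : k) ≠ 0 :=
    fun m h1 _ => Nat.cast_ne_zero.2 h1.ne'
  set Gm : Matrix (Fin r) (Fin r) k := Matrix.of fun i j => (mt ρ (g i * g j)).trace with hGm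
  have hdet : Gm.det ≠ 0 := by
    intro hdet
    obtain ⟨v, hv0, hv⟩ := Matrix.exists_vecMul_eq_zero_iff.2 hdet
    have hy : ∑ i, v i • Pool.Agent.R401.Img.act ρ (g i) = 0 := by
      refine Pool.Agent.R401.Burn.eq_zero_of_trace hchar (Pool.Agent.R401.Img.act ρ) (fun W hW => SS.act hss W hW)
        (Submodule.sum_mem _ fun i _ => Submodule.smul_mem _ _ (Submodule.subset_span ⟨g i, rfl⟩)) ?_
      intro h
      have h1 : Pool.Agent.R401.Img.act ρ h ∈ Submodule.span k (Set.range f) := by
        rw [hf2]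
        exact Submodule.subset_span ⟨h, rfl⟩
      generalize Pool.Agent.R401.Img.act ρ h = z at h1
      induction h1 using Submodule.span_induction with
      | mem y hy =>
        obtain ⟨j, rfl⟩ := hy
        have h2 := congrFun hv j
        rw [Matrix.vecMul, dotProduct] at h2
        rw [← hg, Finset.sum_mul, map_sum]
        rw [Pi.zero_apply] at h2
        rw [← h2]
        refine Finset.sum_congr rfl fun i _ => ?_
        rw [smul_mul_assoc, ← map_mul, map_smul, trace_act, hGm, Matrix.of_apply, smul_eq_mul]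
      | zero => rw [mul_zero, map_zero]
      | add a b _ _ ha hb => rw [mul_add, map_add, ha, hb, add_zero]
      | smul c a _ ha => rw [mul_smul_comm, map_smul, ha, smul_zero]
    apply hv0
    funext i
    refine Fintype.linearIndependent_iff.1 hf3 v ?_ i
    rw [← hy]
    exact Finset.sum_congr rfl fun i _ => by rw [hg]
  -- the enveloping algebra over the complex numbers
  set B : Subalgebra ℂ (End ℂ (Md X)) := (al X).range with hB
  have hfin : Module.Finite ℂ B := inferInstance
  have hart : IsArtinianRing B := IsArtinianRing.of_finite ℂ B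
  have hspan1 : ∀ h : G, ∃ c : Fin r → ℂ, al X (MonoidAlgebra.of ℂ G h) =
      ∑ i, c i • al X (MonoidAlgebra.of ℂ G (g i)) := by
    intro h
    have h1 : Pool.Agent.R401.Img.act ρ h ∈ Submodule.span k (Set.range f) := by
      rw [hf2]
      exact Submodule.subset_span ⟨h, rfl⟩
    obtain ⟨c, hc⟩ := (Submodule.mem_span_range_iff_exists_fun k).1 h1
    refine ⟨fun i => e (c i), ?_⟩
    have h2 : mt ρ h = ∑ i, c i • mt ρ (g i) := by
      apply Matrix.toLinAlgEquiv'.injective
      rw [map_sum, ← act_apply, ← hc]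
      refine Finset.sum_congr rfl fun i _ => ?_
      rw [map_smul, ← act_apply, hg]
    rw [al_of, hX, cx_apply, h2]
    have h3 : (∑ i, c i • mt ρ (g i)).map e = ∑ i, e (c i) • (mt ρ (g i)).map e := by
      rw [← RingHom.mapMatrix_apply, map_sum]
      refine Finset.sum_congr rfl fun i _ => ?_
      ext a b
      simp [Matrix.smul_apply]
    rw [h3, map_sum]
    refine Finset.sum_congr rfl fun i _ => ?_
    rw [map_smul, al_of]
    rfl
  have hspan : ∀ x ∈ B, ∃ c : Fin r → ℂ, x = ∑ i, c i • al X (MonoidAlgebra.of ℂ G (g i)) := by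
    rintro _ ⟨a, rfl⟩
    change ∃ c : Fin r → ℂ, al X a = _
    induction a using MonoidAlgebra.induction_on with
    | of h => exact hspan1 h
    | add a b ha hb =>
      obtain ⟨c, hc⟩ := ha
      obtain ⟨d, hd⟩ := hb
      refine ⟨fun i => c i + d i, ?_⟩
      rw [map_add, hc, hd, ← Finset.sum_add_distrib]
      exact Finset.sum_congr rfl fun i _ => (add_smul _ _ _).symm
    | smul t a ha =>
      obtain ⟨c, hc⟩ := ha
      refine ⟨fun i => t * c i, ?_⟩
      rw [map_smul, hc, Finset.smul_sum]
      exact Finset.sum_congr rfl fun i _ => smul_smul _ _ _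
  have hjac : Ring.jacobson B = ⊥ := by
    rw [eq_bot_iff]
    intro x hx
    obtain ⟨c, hc⟩ := hspan x x.2
    have htr : ∀ j, LinearMap.trace ℂ (Md X) ((x : End ℂ (Md X)) *
        al X (MonoidAlgebra.of ℂ G (g j))) = 0 := by
      intro j
      have h1 : x * (⟨al X (MonoidAlgebra.of ℂ G (g j)), ⟨_, rfl⟩⟩ : B) ∈ Ring.jacobson B :=
        Ideal.mul_mem_right _ _ hx
      obtain ⟨N, hN⟩ := IsSemiprimaryRing.isNilpotent (R := B)
      have h2 : IsNilpotent (x * (⟨al X (MonoidAlgebra.of ℂ G (g j)), ⟨_, rfl⟩⟩ : B)) := by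
        refine ⟨N, ?_⟩
        have h3 := Ideal.pow_mem_pow h1 N
        rw [hN] at h3
        exact h3
      have h4 : IsNilpotent ((x : End ℂ (Md X)) * al X (MonoidAlgebra.of ℂ G (g j))) :=
        h2.map B.val
      exact (LinearMap.isNilpotent_trace_of_isNilpotent h4).eq_zero
    have hc0 : c = 0 := by
      have h1 : Matrix.vecMul c (Gm.map e) = 0 := by
        funext j
        rw [Pi.zero_apply, ← htr j, hc, Finset.sum_mul, map_sum, Matrix.vecMul, dotProduct]
        refine Finset.sum_congr rfl fun i _ => ?_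
        rw [smul_mul_assoc, ← map_mul, ← map_mul, al_of, map_smul, smul_eq_mul]
        congr 1
        have h5 : LinearMap.trace ℂ (Md X) (Matrix.toLin' (X (g i * g j))) =
          (X (g i * g j)).trace := Matrix.trace_toLin'_eq _
        rw [h5, Matrix.map_apply, hGm, Matrix.of_apply, hX, cx_apply, Matrix.trace, Matrix.trace,
          map_sum]
        rfl
      by_contra hne
      have h2 : (Gm.map e).det = 0 := Matrix.exists_vecMul_eq_zero_iff.1 ⟨c, hne, h1⟩
      rw [← RingHom.mapMatrix_apply, ← RingHom.map_det] at h2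
      exact hdet ((map_eq_zero e).1 h2)
    apply Subtype.ext
    rw [hc, hc0]
    simp
  have hss : IsSemisimpleRing B := IsArtinianRing.isSemisimpleRing_iff_jacobson.2 hjac
  let l : Md X →ₛₗ[((al X).rangeRestrict : MonoidAlgebra ℂ G →+* B)] Md X :=
    { toFun := id
      map_add' := fun _ _ => rfl
      map_smul' := fun _ _ => rfl }
  have hsurj : RingHomSurjective ((al X).rangeRestrict : MonoidAlgebra ℂ G →+* B) :=
    ⟨(al X).rangeRestrict_surjective⟩
  exact (LinearMap.isSemisimpleModule_iff_of_bijective l Function.bijective_id).2 inferInstance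

end base

end Pool.Agent.D0H78.WM
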