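import Pool.Agent.D0H78.WM.Loc
import Pool.Agent.D0H78.WM.Ss
import Pool.Agent.D0H78.WM.Rk

/-!
# Weight-monodromy for two representations: the local theorem
-/

set_option autoImplicit false
set_option maxHeartbeats 400000

namespace Pool.Agent.D0H78.WM

open NumberField Filter Topology IsDedekindDomain Pool.Agent.W401.Cheb Pool.Agent.R401.Sup
open Pool.Agent.W569.FM Pool.Agent.R401.Img Pool.Agent.R401.Sup3 Pool.Agent.R401.Sup4
open Pool.Agent.R401.Tr3 Pool.Agent.R401.Tr4 Pool.Agent.R401.Tr5 Module Matrix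
open Pool.Agent.R401.Tr8 Pool.Agent.R401.Tr9

section scalar

variable {M : Type} [AddCommGroup M] [Module ℂ M]

theorem eig_scalar {S : End ℂ M} {c z : ℂ} (hS : ∀ x, S x = c • x) {x : M}
    (hx : x ∈ S.maxGenEigenspace z) (hx0 : x ≠ 0) : z = c := by
  rw [Module.End.mem_maxGenEigenspace] at hx
  obtain ⟨k, hk⟩ := hx
  have h1 : ∀ (k : ℕ), ((S - z • 1 : End ℂ M) ^ k) x = (c - z) ^ k • x := by
    intro k
    induction k with
    | zero => simp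
    | succ k ih =>
      rw [pow_succ', Module.End.mul_apply, ih, LinearMap.sub_apply, hS, LinearMap.smul_apply,
        Module.End.one_apply, ← sub_smul, smul_smul, pow_succ']
  rw [h1] at hk
  rcases smul_eq_zero.1 hk with h | h
  · have h3 : c - z = 0 := by
      by_contra hne
      exact pow_ne_zero _ hne h
    exact (sub_eq_zero.1 h3).symm
  · exact absurd h hx0

/-- scalars are pure -/
theorem pure_scalar {q : ℝ} (hq : 1 < q) {w : ℤ} {S N : End ℂ M} {c : ℂ}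
    (hS : ∀ x, S x = c • x) (hc : ‖c‖ ^ 2 = q ^ w) : Pure q w S N := by
  have hq0 : 0 < q := by linarith
  constructor
  · rintro z ⟨x, hx, hx0⟩
    refine ⟨0, ?_⟩
    rw [eig_scalar hS hx hx0, hc, add_zero]
  · intro j z hz x hx hN
    by_contra hx0
    rw [eig_scalar hS hx hx0, hc] at hz
    have h1 := zpow_inj hq hz
    have h2 : j = 0 := by omega
    subst h2
    exact hx0 (by simpa using hN)
  · intro j z hz y hy
    by_cases hy0 : y = 0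
    · exact ⟨0, Submodule.zero_mem _, by rw [hy0, map_zero]⟩
    have h1 := eig_scalar hS hy hy0
    have hqc : (q : ℂ) ^ j ≠ 0 := pow_ne_zero _ (by exact_mod_cast hq0.ne')
    have h2 : z = c * (q : ℂ) ^ j := by
      rw [← h1, div_mul_cancel₀ _ hqc]
    have h3 : ‖z‖ ^ 2 = q ^ (w + 2 * j) := by
      rw [h2, norm_mul, mul_pow, hc, norm_pow, Complex.norm_real, Real.norm_of_nonneg hq0.le,
        ← pow_mul, zpow_add₀ hq0.ne']
      congr 1
      rw [← zpow_natCast]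
      congr 1
      push_cast
      ring
    rw [h3] at hz
    have h4 := zpow_inj hq hz
    have h5 : j = 0 := by omega
    subst h5
    refine ⟨y, ?_, by simp⟩
    simpa using hy

end scalar

section nu

variable {Γ : Type} [Group Γ] {n : ℕ}

theorem al_nu (X : Γ →* Matrix (Fin n) (Fin n) ℂ) {D : ℕ} (hD : 2 ≤ D) {a : ℕ → ℚ}
    (ha : ∀ j < D, ∑ k ∈ Finset.range D, a k * (k : ℚ) ^ j = if j = 1 then 1 else 0) (τ : Γ)
    {Z : Matrix (Fin n) (Fin n) ℂ} {c : ℂ} (h : ∀ k : ℕ, X (τ ^ k) = ex D Z (k * c)) :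
    al X (∑ k ∈ Finset.range D, (a k : ℂ) • MonoidAlgebra.of ℂ Γ (τ ^ k)) =
      c • Matrix.toLin' Z := by
  rw [map_sum, ← map_smul, ← comb_ex hD ha Z c, map_sum]
  refine Finset.sum_congr rfl fun k _ => ?_
  rw [map_smul, al_of, h, map_smul]
  rfl

theorem ex_zero {D : ℕ} (hD : 2 ≤ D) (k : ℂ) :
    ex D (0 : Matrix (Fin n) (Fin n) ℂ) k = 1 := by
  rw [← exp_eq_ex (by rw [zero_pow (by omega)]), smul_zero, IsNilpotent.exp_zero]

/-- a scalar representation -/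
noncomputable def sc (a : ℕ) (χ : Γ →* ℂ) : Γ →* Matrix (Fin a) (Fin a) ℂ :=
  ((Matrix.scalar (Fin a) : ℂ →+* Matrix (Fin a) (Fin a) ℂ) : ℂ →* _).comp χ

theorem sc_apply (a : ℕ) (χ : Γ →* ℂ) (g : Γ) :
    sc a χ g = χ g • (1 : Matrix (Fin a) (Fin a) ℂ) := by
  rw [Matrix.smul_one_eq_diagonal]
  rfl

theorem trace_sc (a : ℕ) (χ : Γ →* ℂ) (g : Γ) : (sc a χ g).trace = a * χ g := by
  rw [sc_apply, Matrix.trace_smul, Matrix.trace_one, Fintype.card_fin, smul_eq_mul, mul_comm]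

end nu

variable {K : Type} [Field K] [NumberField K] {ℓ : ℕ} [Fact ℓ.Prime] {n m : ℕ}

section dims

theorem charpoly_of_traces {ι κ : Type} [Fintype ι] [DecidableEq ι] [Fintype κ] [DecidableEq κ]
    (A : Matrix ι ι ℂ) (B : Matrix κ κ ℂ) (h : ∀ k : ℕ, (A ^ k).trace = (B ^ k).trace) :
    A.charpoly = B.charpoly := by
  have hcard : Fintype.card ι = Fintype.card κ := by
    have h1 := h 0
    rw [pow_zero, pow_zero, Matrix.trace_one, Matrix.trace_one] at h1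
    exact_mod_cast h1
  let g : ι ≃ κ := Fintype.equivOfCardEq hcard
  have h1 : (Matrix.reindexAlgEquiv ℂ ℂ g A).charpoly = B.charpoly := by
    apply Pool.Agent.TH658.Eq.charpoly_eq_of_traces
    intro k
    rw [← map_pow, ← h k, Matrix.coe_reindexAlgEquiv, Matrix.trace, Matrix.trace]
    exact Equiv.sum_comp g.symm (fun i => (A ^ k) i i)
  rw [Matrix.coe_reindexAlgEquiv] at h1
  rw [← h1]
  exact (Matrix.charpoly_reindex g A).symm

theorem dims {n m a b : ℕ} (A : Matrix (Fin n) (Fin n) ℂ) (B : Matrix (Fin m) (Fin m) ℂ) (D : ℂ)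
    (h : ∀ k : ℕ, (A ^ k).trace + a * D ^ k = (B ^ k).trace + b * D ^ k) {z : ℂ}
    (hz : z ≠ D ∨ (a = 0 ∧ b = 0)) :
    A.charpoly.rootMultiplicity z = B.charpoly.rootMultiplicity z := by
  have hblock : ∀ {r s : ℕ} (A : Matrix (Fin r) (Fin r) ℂ) (k : ℕ),
      ((fromBlocks A 0 0 (D • (1 : Matrix (Fin s) (Fin s) ℂ))) ^ k).trace =
        (A ^ k).trace + s * D ^ k := by
    intro r s A k
    rw [fromBlocks_diagonal_pow, _root_.smul_pow, one_pow]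
    simp [Matrix.trace, Fintype.sum_sum_type]
  have h1 : (fromBlocks A 0 0 (D • (1 : Matrix (Fin a) (Fin a) ℂ))).charpoly =
      (fromBlocks B 0 0 (D • (1 : Matrix (Fin b) (Fin b) ℂ))).charpoly :=
    charpoly_of_traces _ _ fun k => by rw [hblock, hblock, h]
  rw [charpoly_fromBlocks_zero₁₂, charpoly_fromBlocks_zero₁₂] at h1
  have h2 : ∀ {s : ℕ}, s = 0 ∨ z ≠ D →
      (D • (1 : Matrix (Fin s) (Fin s) ℂ)).charpoly.rootMultiplicity z = 0 := by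
    intro s hs
    apply Polynomial.rootMultiplicity_eq_zero
    intro hroot
    have h7 := Matrix.mem_spectrum_iff_isRoot_charpoly.2 hroot
    rcases hs with hs | hs
    · subst hs
      exact h7 (isUnit_of_subsingleton _)
    · apply h7
      change IsUnit (algebraMap ℂ (Matrix (Fin s) (Fin s) ℂ) z - D • 1)
      rw [show algebraMap ℂ (Matrix (Fin s) (Fin s) ℂ) z - D • 1 = (z - D) • 1 by
        rw [Algebra.algebraMap_eq_smul_one, sub_smul]]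
      exact ((Units.mk0 (z - D) (sub_ne_zero.2 hs)) • (1 : (Matrix (Fin s) (Fin s) ℂ)ˣ)).isUnit
  have h3 := congrArg (Polynomial.rootMultiplicity z) h1
  rw [Polynomial.rootMultiplicity_mul, Polynomial.rootMultiplicity_mul, h2, h2, add_zero,
    add_zero] at h3
  · exact h3
  · rcases hz with hz | hz
    · exact Or.inr hz
    · exact Or.inl hz.2
  · rcases hz with hz | hz
    · exact Or.inr hz
    · exact Or.inl hz.1
  · exact mul_ne_zero (Matrix.charpoly_monic _).ne_zero (Matrix.charpoly_monic _).ne_zero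
  · exact mul_ne_zero (Matrix.charpoly_monic _).ne_zero (Matrix.charpoly_monic _).ne_zero

end dims

/-- the weight-monodromy property -/
def WMP {n : ℕ} (q : ℕ) (w : ℤ) (A N : Matrix (Fin n) (Fin n) ℂ) : Prop :=
  ∃ Fil : ℤ → Submodule ℂ (Fin n → ℂ), MF (Matrix.toLin' N) Fil ∧
    (∀ s, ∀ x ∈ Fil s, Matrix.toLin' A x ∈ Fil s) ∧
    ∀ (s : ℤ) (z : ℂ), ∀ x ∈ Fil s, x ∉ Fil (s - 1) → Matrix.toLin' A x - z • x ∈ Fil (s - 1) →
      ‖z‖ ^ 2 = (q : ℝ) ^ (w + s)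

theorem chi_exists {V : GK K →* GL (Fin n) ℚ_[ℓ]} {W : GK K →* GL (Fin m) ℚ_[ℓ]}
    {U : Subgroup (GK K)} {w : ℤ}
    (hU : (∀ x ∈ U, (mt V x).trace = (mt W x).trace) ∨ ∃ u : ℤ, w = 2 * u ∧
      ∀ x ∈ U, cyc K ℓ ℚ_[ℓ] x ^ u * ((mt V x).trace - (mt W x).trace) = n - m)
    {P : Ideal (OO K)} (hP : P.IsMaximal) {q : ℕ} (hq : 2 ≤ q) {σ : GK K} (hσ : FrobAt q P σ)
    (hℓP : (ℓ : OO K) ∉ P) (e : ℚ_[ℓ] →+* ℂ) :
    ∃ (a b : ℕ) (χ : U →* ℂ),
      (∀ x : U, e (mt V (x : GK K)).trace + a * χ x = e (mt W (x : GK K)).trace + b * χ x) ∧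
      (∀ x : U, InInertia P (x : GK K) → χ x = 1) ∧
      ((a = 0 ∧ b = 0) ∨
        ∀ (x : U) (k : ℕ), (x : GK K) = σ⁻¹ ^ k → ‖χ x‖ ^ 2 = ((q : ℝ) ^ k) ^ w) := by
  have hq0 : (0 : ℝ) < (q : ℝ) := by
    have : 0 < q := by omega
    exact_mod_cast this
  rcases hU with hU | ⟨u, hu, hU⟩
  · refine ⟨0, 0, 1, fun x => ?_, fun x _ => rfl, Or.inl ⟨rfl, rfl⟩⟩
    rw [hU x x.2]
  · refine ⟨m, n, ((e : ℚ_[ℓ] →* ℂ).comp (zpowGroupHom (-u))).comp
      ((cyc K ℓ ℚ_[ℓ]).comp U.subtype), fun x => ?_, fun x hx => ?_, Or.inr fun x k hx => ?_⟩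
    · have h1 : ((e : ℚ_[ℓ] →* ℂ).comp (zpowGroupHom (-u))).comp
          ((cyc K ℓ ℚ_[ℓ]).comp U.subtype) x = e (cyc K ℓ ℚ_[ℓ] (x : GK K) ^ (-u)) := rfl
      have hc : cyc K ℓ ℚ_[ℓ] (x : GK K) ≠ 0 := c_ne _ _
      have h2 : (mt V (x : GK K)).trace - (mt W (x : GK K)).trace =
          (n - m) * cyc K ℓ ℚ_[ℓ] (x : GK K) ^ (-u) := by
        rw [← hU x x.2, _root_.zpow_neg]
        field_simp
      have h3 := congrArg e h2
      rw [map_sub, map_mul, map_sub, map_natCast, map_natCast] at h3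
      rw [h1]
      linear_combination h3
    · change e (cyc K ℓ ℚ_[ℓ] (x : GK K) ^ (-u)) = 1
      rw [cyc_inertia hP hℓP hσ hx, _root_.one_zpow, map_one]
    · change ‖e (cyc K ℓ ℚ_[ℓ] (x : GK K) ^ (-u))‖ ^ 2 = _
      rw [hx, map_pow, c_inv, cyc_sigma (ℓ := ℓ) hP hσ hℓP, map_zpow₀, map_pow, map_inv₀,
        map_natCast, norm_zpow, norm_pow, norm_inv, Complex.norm_natCast, inv_pow, _root_.zpow_neg,
        _root_.inv_zpow, inv_inv, hu, ← zpow_natCast _ 2, ← _root_.zpow_mul]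
      congr 1
      ring

/-- **The local theorem.** -/
theorem loc {V : GK K →* GL (Fin n) ℚ_[ℓ]} (hV : Continuous V) {W : GK K →* GL (Fin m) ℚ_[ℓ]}
    (hW : Continuous W) (hss : SS W)
    {U : Subgroup (GK K)} (hUn : U.Normal) (hUo : IsOpen (U : Set (GK K))) {w : ℤ}
    (hU : (∀ x ∈ U, (mt V x).trace = (mt W x).trace) ∨ ∃ u : ℤ, w = 2 * u ∧
      ∀ x ∈ U, cyc K ℓ ℚ_[ℓ] x ^ u * ((mt V x).trace - (mt W x).trace) = n - m)
    {P : Ideal (OO K)} (hP : P.IsMaximal) {q : ℕ} (hq : 2 ≤ q) {σ : GK K} (hσ : FrobAt q P σ)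
    (hℓP : (ℓ : OO K) ∉ P) {t : GK K → ℚ_[ℓ]}
    (ht : ∀ σ τ, InInertia P σ → InInertia P τ → t (σ * τ) = t σ + t τ)
    (ht0 : ∃ τ, InInertia P τ ∧ t τ ≠ 0)
    {NV : Matrix (Fin n) (Fin n) ℚ_[ℓ]} (hNV : IsMon V P t NV)
    {NW : Matrix (Fin m) (Fin m) ℚ_[ℓ]} (hNW : IsMon W P t NW) (e : ℚ_[ℓ] →+* ℂ)
    (hWM : WMP q w ((mt W σ⁻¹).map e) (NW.map e)) :
    WMP q w ((mt V σ⁻¹).map e) (NV.map e) ∧ ∀ j : ℕ, 0 < j → (NV ^ j).rank = (NW ^ j).rank := by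
  have hq1 : (1 : ℝ) < (q : ℝ) := by exact_mod_cast (by omega : 1 < q)
  obtain ⟨⟨DV, hDV⟩, HV, hHVo, hHV⟩ := hNV
  obtain ⟨⟨DW, hDW⟩, HW, hHWo, hHW⟩ := hNW
  set D : ℕ := DV + DW + 2 with hDdef
  have hD : 2 ≤ D := by omega
  have hND : NV ^ D = 0 := by
    rw [hDdef, add_assoc, pow_add, hDV, zero_mul]
  have hND' : NW ^ D = 0 := by
    rw [hDdef, add_comm DV, add_assoc, pow_add, hDW, zero_mul]
  obtain ⟨SV, hSVn, hSVo, hSV⟩ := exists_small (mh V) (Units.continuous_val.comp hV)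
  obtain ⟨SW, hSWn, hSWo, hSW⟩ := exists_small (mh W) (Units.continuous_val.comp hW)
  obtain ⟨τ₁, hτ₁, hτ₁0⟩ := ht0
  -- a small element of the inertia group
  obtain ⟨τ, hτ, hτt, hτV, hτW, hτSV, hτSW, hτU⟩ : ∃ τ : GK K, InInertia P τ ∧ t τ ≠ 0 ∧ τ ∈ HV ∧
      τ ∈ HW ∧ τ ∈ SV ∧ τ ∈ SW ∧ τ ∈ U := by
    have ho : IsOpen ((HV ⊓ HW ⊓ SV ⊓ SW ⊓ U : Subgroup (GK K)) : Set (GK K)) := by
      simp only [Subgroup.coe_inf]
      exact (((hHVo.inter hHWo).inter hSVo).inter hSWo).inter hUo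
    have hfin : Finite (GK K ⧸ (HV ⊓ HW ⊓ SV ⊓ SW ⊓ U)) := Subgroup.quotient_finite_of_isOpen _ ho
    have hfi : (HV ⊓ HW ⊓ SV ⊓ SW ⊓ U).FiniteIndex := Subgroup.finiteIndex_of_finite_quotient
    obtain ⟨k, hk, -, hk'⟩ := Subgroup.exists_pow_mem_of_index_ne_zero hfi.index_ne_zero τ₁
    refine ⟨τ₁ ^ k, (IG P).pow_mem (show τ₁ ∈ IG P from hτ₁) k, ?_, hk'.1.1.1.1, hk'.1.1.1.2,
      hk'.1.1.2, hk'.1.2, hk'.2⟩
    rw [t_pow ht hτ₁]
    exact mul_ne_zero (Nat.cast_ne_zero.2 hk.ne') hτ₁0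
  have relV := mon_rel hV ht hHV hD hND hP hq hσ hℓP hSVn hSVo hSV hτ hτV hτSV hτt
  have relW := mon_rel hW ht hHW hD hND' hP hq hσ hℓP hSWn hSWo hSW hτ hτW hτSW hτt
  -- relation for the linear maps
  have hrel : ∀ {r : ℕ} {ρ : GK K →* GL (Fin r) ℚ_[ℓ]} {N : Matrix (Fin r) (Fin r) ℚ_[ℓ]},
      mt ρ σ⁻¹ * N = (q : ℚ_[ℓ])⁻¹ • (N * mt ρ σ⁻¹) → ∀ x : Fin r → ℂ,
      Matrix.toLin' ((mt ρ σ⁻¹).map e) (Matrix.toLin' (N.map e) x) =
        ((q : ℝ) : ℂ)⁻¹ • Matrix.toLin' (N.map e) (Matrix.toLin' ((mt ρ σ⁻¹).map e) x) := by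
    intro r ρ N h x
    have h1 := congrArg e.mapMatrix h
    rw [map_mul] at h1
    have h2 : e.mapMatrix ((q : ℚ_[ℓ])⁻¹ • (N * mt ρ σ⁻¹)) =
        (((q : ℝ) : ℂ)⁻¹) • (e.mapMatrix N * e.mapMatrix (mt ρ σ⁻¹)) := by
      rw [← map_mul]
      ext i j
      rw [RingHom.mapMatrix_apply, Matrix.map_apply, Matrix.smul_apply, Matrix.smul_apply,
        smul_eq_mul, smul_eq_mul, map_mul, map_inv₀, map_natCast, RingHom.mapMatrix_apply,
        Matrix.map_apply, Complex.ofReal_natCast]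
    rw [h2] at h1
    have h3 := congrArg (fun A : Matrix (Fin r) (Fin r) ℂ => Matrix.toLin' A x) h1
    simp only [Matrix.toLin'_mul, map_smul, LinearMap.comp_apply, LinearMap.smul_apply] at h3
    exact h3
  have hrV := hrel relV
  have hrW := hrel relW
  obtain ⟨Fil, hFil, hFilS, hFilE⟩ := hWM
  have hfin : Finite (GK K ⧸ U) := Subgroup.quotient_finite_of_isOpen _ hUo
  have hfi : U.FiniteIndex := Subgroup.finiteIndex_of_finite_quotient
  set M : ℕ := U.index with hM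
  have hMpos : 0 < M := Nat.pos_of_ne_zero hfi.index_ne_zero
  have hgM : σ⁻¹ ^ M ∈ U := Subgroup.pow_index_mem U σ⁻¹
  have pW := pure_of_fil hq1 hrW hFil hFilS hFilE hMpos
  -- the group algebra of `U`
  obtain ⟨ac, hac⟩ := log_comb D
  set et : ℂ := e (t τ) with het
  have het0 : et ≠ 0 := by
    rw [het]
    exact (map_ne_zero e).2 hτt
  set s : MonoidAlgebra ℂ U := MonoidAlgebra.of ℂ U ⟨σ⁻¹ ^ M, hgM⟩ with hs
  set ν : MonoidAlgebra ℂ U := ∑ k ∈ Finset.range D, (ac k : ℂ) •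
    MonoidAlgebra.of ℂ U ((⟨τ, hτU⟩ : U) ^ k) with hν
  set XV : U →* Matrix (Fin n) (Fin n) ℂ := (cx V e).comp U.subtype with hXV
  set XW : U →* Matrix (Fin m) (Fin m) ℂ := (cx W e).comp U.subtype with hXW
  have hsX : ∀ {r : ℕ} (ρ : GK K →* GL (Fin r) ℚ_[ℓ]),
      al ((cx ρ e).comp U.subtype) s = (Matrix.toLin' ((mt ρ σ⁻¹).map e)) ^ M := by
    intro r ρ
    rw [hs, al_of]
    change Matrix.toLin' ((mt ρ (σ⁻¹ ^ M)).map e) = _
    rw [Pool.Agent.R401.Tr9.mt_pow, ← RingHom.mapMatrix_apply, map_pow, Matrix.toLin'_pow]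
    rfl
  have hνX : ∀ {r : ℕ} {ρ : GK K →* GL (Fin r) ℚ_[ℓ]} {N : Matrix (Fin r) (Fin r) ℚ_[ℓ]}
      {H : Subgroup (GK K)} (hH : ∀ τ ∈ H, InInertia P τ → mt ρ τ = IsNilpotent.exp (t τ • N))
      (hN : N ^ D = 0) (hτH : τ ∈ H),
      al ((cx ρ e).comp U.subtype) ν = et • Matrix.toLin' (N.map e) := by
    intro r ρ N H hH hN hτH
    rw [hν]
    refine al_nu _ hD hac _ fun k => ?_
    change (mt ρ (τ ^ k)).map e = _
    rw [pow_mt ht hH hN hτ hτH, ex_map, map_mul, map_natCast]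
  obtain ⟨a, b, χ, hχ1, hχ2, hχ3⟩ := chi_exists hU hP hq hσ hℓP e
  have hνY : ∀ r : ℕ, al (sc r χ) ν = 0 := by
    intro r
    rw [hν, al_nu (Z := 0) (c := 0) _ hD hac _ fun k => ?_]
    · exact zero_smul _ _
    · rw [ex_zero hD, sc_apply, hχ2, one_smul]
      exact (IG P).pow_mem (show τ ∈ IG P from hτ) k
  have hsY : ∀ (r : ℕ) (x : Md (sc r χ)), al (sc r χ) s x = χ ⟨σ⁻¹ ^ M, hgM⟩ • x := by
    intro r x
    rw [hs, al_of, sc_apply, map_smul, Matrix.toLin'_one]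
    rfl
  have hsemW : IsSemisimpleModule (MonoidAlgebra ℂ U) (Md XW) :=
    clifford (cx W e) U (semisimple_cx W hss e)
  have hsemY : IsSemisimpleModule (MonoidAlgebra ℂ U) (Md (sc b χ)) :=
    semisimple_scalar (fun g => χ g) fun g => sc_apply b χ g
  have hQ1 : (1 : ℝ) < (q : ℝ) ^ M := one_lt_pow₀ hq1 hMpos.ne'
  have hrelX : ∀ {r : ℕ} {ρ : GK K →* GL (Fin r) ℚ_[ℓ]} {N : Matrix (Fin r) (Fin r) ℚ_[ℓ]}
      (h1 : al ((cx ρ e).comp U.subtype) ν = et • Matrix.toLin' (N.map e))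
      (h2 : ∀ x : Fin r → ℂ, Matrix.toLin' ((mt ρ σ⁻¹).map e) (Matrix.toLin' (N.map e) x) =
        ((q : ℝ) : ℂ)⁻¹ • Matrix.toLin' (N.map e) (Matrix.toLin' ((mt ρ σ⁻¹).map e) x))
      (x : Md ((cx ρ e).comp U.subtype)),
      s • ν • x = ((((q : ℝ) ^ M : ℝ)) : ℂ)⁻¹ • ν • s • x := by
    intro r ρ N h1 h2 x
    rw [smul_def, smul_def, smul_def, smul_def, h1, hsX ρ]
    have h3 := rel_pow h2 M x
    change ((Matrix.toLin' ((mt ρ σ⁻¹).map e)) ^ M) (et • Matrix.toLin' (N.map e) x) =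
      ((((q : ℝ) ^ M : ℝ)) : ℂ)⁻¹ • (et • Matrix.toLin' (N.map e)
        (((Matrix.toLin' ((mt ρ σ⁻¹).map e)) ^ M) x))
    rw [map_smul, h3, smul_comm]
  have hrelY : ∀ (r : ℕ) (x : Md (sc r χ)),
      s • ν • x = ((((q : ℝ) ^ M : ℝ)) : ℂ)⁻¹ • ν • s • x := by
    intro r x
    rw [smul_def, smul_def, smul_def, hνY, LinearMap.zero_apply, LinearMap.zero_apply, map_zero,
      smul_zero]
  have pX : Pure ((q : ℝ) ^ M) w (act (Md XV) s) (act (Md XV) ν) := by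
    refine pure_main (X := XV) (Y := sc a χ) (X' := XW) (Y' := sc b χ) ?_ hsemW hsemY
      (by positivity) ?_ ?_ (hrelX (hνX hHV hND hτV) hrV) (hrelY a)
      (hrelX (hνX hHW hND' hτW) hrW) (hrelY b)
    · intro g
      rw [trace_sc, trace_sc]
      have h1 : ∀ {r : ℕ} (ρ : GK K →* GL (Fin r) ℚ_[ℓ]),
          (((cx ρ e).comp U.subtype) g).trace = e (mt ρ (g : GK K)).trace := by
        intro r ρ
        change ((mt ρ (g : GK K)).map e).trace = _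
        rw [Matrix.trace, Matrix.trace, map_sum]
        rfl
      rw [hXV, hXW, h1, h1]
      exact hχ1 g
    · rw [act_eq, act_eq, hsX W, hνX hHW hND' hτW]
      exact Pure.smul het0 pW
    · rw [act_eq, act_eq]
      rcases hχ3 with ⟨-, hb⟩ | hχ3
      · subst hb
        have : Subsingleton (Md (sc 0 χ)) := inferInstanceAs (Subsingleton (Fin 0 → ℂ))
        exact Pure.of_subsingleton
      · refine pure_scalar hQ1 (hsY b) ?_
        exact hχ3 ⟨σ⁻¹ ^ M, hgM⟩ M rfl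
  rw [act_eq, act_eq, hsX V, hνX hHV hND hτV] at pX
  have pV : Pure ((q : ℝ) ^ M) w ((Matrix.toLin' ((mt V σ⁻¹).map e)) ^ M)
      (Matrix.toLin' (NV.map e)) := by
    have h1 : Pure ((q : ℝ) ^ M) w ((Matrix.toLin' ((mt V σ⁻¹).map e)) ^ M)
      (et⁻¹ • (et • Matrix.toLin' (NV.map e) : End ℂ (Fin n → ℂ))) :=
      Pure.smul (inv_ne_zero het0) pX
    rwa [smul_smul, inv_mul_cancel₀ het0, one_smul] at h1
  refine ⟨fil_of_pure hq1 hrV hMpos pV, fun j hj => ?_⟩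
  have hdim : ∀ z : ℂ, ‖z‖ ^ 2 ≠ ((q : ℝ) ^ M) ^ w →
      finrank ℂ (Module.End.maxGenEigenspace ((Matrix.toLin' ((mt V σ⁻¹).map e)) ^ M) z) =
      finrank ℂ (Module.End.maxGenEigenspace ((Matrix.toLin' ((mt W σ⁻¹).map e)) ^ M) z) := by
    intro z hz
    rw [LinearMap.finrank_maxGenEigenspace_eq, LinearMap.finrank_maxGenEigenspace_eq,
      ← Matrix.toLin'_pow, ← Matrix.toLin'_pow, Matrix.charpoly_toLin', Matrix.charpoly_toLin']
    refine dims (a := a) (b := b) _ _ (χ ⟨σ⁻¹ ^ M, hgM⟩) (fun k => ?_) ?_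
    · have h1 : ∀ {r : ℕ} (ρ : GK K →* GL (Fin r) ℚ_[ℓ]),
          ((((mt ρ σ⁻¹).map e) ^ M) ^ k).trace = e (mt ρ ((σ⁻¹ ^ M) ^ k)).trace := by
        intro r ρ
        rw [Pool.Agent.R401.Tr9.mt_pow, Pool.Agent.R401.Tr9.mt_pow, ← RingHom.mapMatrix_apply,
          ← map_pow, ← map_pow, RingHom.mapMatrix_apply, Matrix.trace, Matrix.trace, map_sum]
        rfl
      have h2 := hχ1 (⟨σ⁻¹ ^ M, hgM⟩ ^ k)
      rw [map_pow] at h2
      rw [h1, h1]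
      exact h2
    · rcases hχ3 with h1 | h1
      · exact Or.inr h1
      · left
        rintro rfl
        exact hz (h1 ⟨σ⁻¹ ^ M, hgM⟩ M rfl)
  have hrk := rk hQ1 (rel_pow hrV M) (rel_pow hrW M) pV pW hdim hj
  rw [← rank_map e (NV ^ j), ← rank_map e (NW ^ j)]
  have h1 : ∀ {r : ℕ} (N : Matrix (Fin r) (Fin r) ℚ_[ℓ]),
      ((N ^ j).map e).rank = finrank ℂ (LinearMap.range ((Matrix.toLin' (N.map e)) ^ j)) := by
    intro r N
    rw [← Matrix.toLin'_pow, ← RingHom.mapMatrix_apply, ← RingHom.mapMatrix_apply, ← map_pow]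
    rfl
  rw [h1, h1]
  exact hrk

end Pool.Agent.D0H78.WM
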