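import Pool.Agent.D0H78.WM.Rep
import Pool.Agent.R401.Burn

/-!
# Purity of a representation whose character is contained in the one of a pure semisimple one
-/

set_option autoImplicit false

namespace Pool.Agent.D0H78.WM

open Module

section md

variable {Γ : Type} [Group Γ] {n : ℕ}

/-- the module of a matrix representation -/
@[nolint unusedArguments]
def Md (_X : Γ →* Matrix (Fin n) (Fin n) ℂ) : Type := Fin n → ℂ

variable (X : Γ →* Matrix (Fin n) (Fin n) ℂ)

noncomputable instance : AddCommGroup (Md X) := inferInstanceAs (AddCommGroup (Fin n → ℂ))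
noncomputable instance : Module ℂ (Md X) := inferInstanceAs (Module ℂ (Fin n → ℂ))
instance : FiniteDimensional ℂ (Md X) := inferInstanceAs (FiniteDimensional ℂ (Fin n → ℂ))

/-- the action of the group algebra -/
noncomputable def al : MonoidAlgebra ℂ Γ →ₐ[ℂ] End ℂ (Md X) :=
  MonoidAlgebra.lift ℂ (End ℂ (Md X)) Γ
    (((Matrix.toLinAlgEquiv' : Matrix (Fin n) (Fin n) ℂ ≃ₐ[ℂ] _) :
      Matrix (Fin n) (Fin n) ℂ →* End ℂ (Fin n → ℂ)).comp X)

noncomputable instance : Module (MonoidAlgebra ℂ Γ) (Md X) :=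
  Module.compHom (Md X) (al X).toRingHom

theorem smul_def (a : MonoidAlgebra ℂ Γ) (x : Md X) : a • x = al X a x := rfl

instance : IsScalarTower ℂ (MonoidAlgebra ℂ Γ) (Md X) where
  smul_assoc c a x := by
    rw [smul_def, smul_def, map_smul, LinearMap.smul_apply]

theorem al_of (g : Γ) : al X (MonoidAlgebra.of ℂ Γ g) = Matrix.toLin' (X g) := by
  unfold al
  rw [MonoidAlgebra.lift_of]
  rfl

theorem act_eq (a : MonoidAlgebra ℂ Γ) : act (Md X) a = al X a := by
  ext x
  rfl

end md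

section main

variable {Γ : Type} [Group Γ] {n a m b : ℕ}

theorem trace_ext (X : Γ →* Matrix (Fin n) (Fin n) ℂ) (Y : Γ →* Matrix (Fin a) (Fin a) ℂ)
    (X' : Γ →* Matrix (Fin m) (Fin m) ℂ) (Y' : Γ →* Matrix (Fin b) (Fin b) ℂ)
    (htr : ∀ g, (X g).trace + (Y g).trace = (X' g).trace + (Y' g).trace)
    (r : MonoidAlgebra ℂ Γ) : LinearMap.trace ℂ _ (al X r) + LinearMap.trace ℂ _ (al Y r) =
      LinearMap.trace ℂ _ (al X' r) + LinearMap.trace ℂ _ (al Y' r) := by
  have hT : ∀ {k : ℕ} (Z : Γ →* Matrix (Fin k) (Fin k) ℂ) (g : Γ),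
      LinearMap.trace ℂ (Md Z) (al Z (MonoidAlgebra.of ℂ Γ g)) = (Z g).trace := by
    intro k Z g
    rw [al_of]
    exact Matrix.trace_toLin'_eq (Z g)
  induction r using MonoidAlgebra.induction_on with
  | of g => rw [hT, hT, hT, hT, htr]
  | add r s hr hs =>
    simp only [map_add]
    linear_combination hr + hs
  | smul c r hr =>
    simp only [map_smul, smul_eq_mul]
    linear_combination c * hr

theorem pure_main {X : Γ →* Matrix (Fin n) (Fin n) ℂ} {Y : Γ →* Matrix (Fin a) (Fin a) ℂ}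
    {X' : Γ →* Matrix (Fin m) (Fin m) ℂ} {Y' : Γ →* Matrix (Fin b) (Fin b) ℂ}
    (htr : ∀ g, (X g).trace + (Y g).trace = (X' g).trace + (Y' g).trace)
    (hss : IsSemisimpleModule (MonoidAlgebra ℂ Γ) (Md X'))
    (hss' : IsSemisimpleModule (MonoidAlgebra ℂ Γ) (Md Y'))
    {q : ℝ} (hq : q ≠ 0) {w : ℤ} {s ν : MonoidAlgebra ℂ Γ}
    (hX' : Pure q w (act (Md X') s) (act (Md X') ν))
    (hY' : Pure q w (act (Md Y') s) (act (Md Y') ν))
    (hrX : ∀ x : Md X, s • ν • x = (q : ℂ)⁻¹ • ν • s • x)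
    (hrY : ∀ x : Md Y, s • ν • x = (q : ℂ)⁻¹ • ν • s • x)
    (hrX' : ∀ x : Md X', s • ν • x = (q : ℂ)⁻¹ • ν • s • x)
    (hrY' : ∀ x : Md Y', s • ν • x = (q : ℂ)⁻¹ • ν • s • x) :
    Pure q w (act (Md X) s) (act (Md X) ν) := by
  have hW : Pure q w (act (Md X' × Md Y') s) (act (Md X' × Md Y') ν) := by
    refine Pure.ext (i := LinearMap.inl ℂ (Md X') (Md Y')) (f := LinearMap.snd ℂ (Md X') (Md Y'))
      LinearMap.inl_injective LinearMap.snd_surjective ?_ ?_ ?_ (fun x => rfl) (fun x => rfl)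
      hX' hY' ?_
    · rintro ⟨x, y⟩ hxy
      exact ⟨x, Prod.ext rfl (Eq.symm hxy)⟩
    · intro x
      exact Prod.ext rfl (smul_zero s).symm
    · intro x
      exact Prod.ext rfl (smul_zero ν).symm
    · intro j z x hx
      refine lower_pow hq (fun y => ?_) j z x hx
      exact Prod.ext (hrX' y.1) (hrY' y.2)
  have hsem : IsSemisimpleModule (MonoidAlgebra ℂ Γ) (Md X' × Md Y') := by
    rw [← Submodule.topEquiv.isSemisimpleModule_iff_of_bijective
      (LinearEquiv.bijective _), ← LinearMap.sup_range_inl_inr]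
    have h1 : IsSemisimpleModule (MonoidAlgebra ℂ Γ)
        (LinearMap.range (LinearMap.inl (MonoidAlgebra ℂ Γ) (Md X') (Md Y'))) := .range _
    have h2 : IsSemisimpleModule (MonoidAlgebra ℂ Γ)
        (LinearMap.range (LinearMap.inr (MonoidAlgebra ℂ Γ) (Md X') (Md Y'))) := .range _
    exact IsSemisimpleModule.sup h1 h2
  have hT : Pure q w (act (Md X × Md Y) s) (act (Md X × Md Y) ν) := by
    refine pure_of_nil (Md X' × Md Y') hq hW _ (Md X × Md Y) rfl
      (fun x => Prod.ext (hrX x.1) (hrY x.2)) ?_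
    intro r hr
    have h1 : ∀ k : ℕ, LinearMap.trace ℂ (Md X × Md Y) ((act (Md X × Md Y) r) ^ (k + 1)) = 0 := by
      intro k
      have h2 : (act (Md X × Md Y) r) ^ (k + 1) =
          (al X (r ^ (k + 1))).prodMap (al Y (r ^ (k + 1))) := by
        unfold act
        rw [← map_pow]
        rfl
      rw [h2, LinearMap.trace_prodMap', trace_ext X Y X' Y' htr]
      have h3 : ∀ x : Md X' × Md Y', r ^ (k + 1) • x = 0 := by
        intro x
        rw [pow_succ, mul_smul, hr, smul_zero]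
      have h4 : al X' (r ^ (k + 1)) = 0 := by
        ext1 x
        exact congrArg Prod.fst (h3 (x, 0))
      have h5 : al Y' (r ^ (k + 1)) = 0 := by
        ext1 x
        exact congrArg Prod.snd (h3 (0, x))
      rw [h4, h5, map_zero, map_zero, add_zero]
    obtain ⟨k, hk⟩ := Pool.Agent.R401.Burn.isNilpotent_of_trace_pow
      (fun m h1 _ => Nat.cast_ne_zero.2 h1.ne') (act (Md X × Md Y) r) h1
    refine ⟨k, fun x => ?_⟩
    have h2 : act (Md X × Md Y) (r ^ k) = 0 := by
      unfold act at hk ⊢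
      rw [map_pow, hk]
    exact LinearMap.congr_fun h2 x
  exact Pure.retract (S := act (Md X × Md Y) s) (N := act (Md X × Md Y) ν)
    (i := LinearMap.inl ℂ (Md X) (Md Y)) (r := LinearMap.fst ℂ (Md X) (Md Y)) (fun x => rfl)
    (fun x => Prod.ext rfl (smul_zero s).symm) (fun x => Prod.ext rfl (smul_zero ν).symm)
    (fun x => rfl) (fun x => rfl) hT

/-- scalar representations are semisimple -/
theorem semisimple_scalar {Y' : Γ →* Matrix (Fin b) (Fin b) ℂ} (c : Γ → ℂ)
    (hc : ∀ g, Y' g = c g • (1 : Matrix (Fin b) (Fin b) ℂ)) :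
    IsSemisimpleModule (MonoidAlgebra ℂ Γ) (Md Y') := by
  have h1 : ∀ r : MonoidAlgebra ℂ Γ, ∃ d : ℂ, ∀ x : Md Y', r • x = d • x := by
    intro r
    induction r using MonoidAlgebra.induction_on with
    | of g =>
      refine ⟨c g, fun x => ?_⟩
      rw [smul_def, al_of, hc]
      change ((c g • (1 : Matrix (Fin b) (Fin b) ℂ)).toLin') x = c g • x
      rw [map_smul, Matrix.toLin'_one]
      rfl
    | add r s hr hs =>
      obtain ⟨d, hd⟩ := hr
      obtain ⟨d', hd'⟩ := hs
      exact ⟨d + d', fun x => by rw [add_smul, hd, hd', add_smul]⟩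
    | smul c r hr =>
      obtain ⟨d, hd⟩ := hr
      exact ⟨c * d, fun x => by rw [smul_assoc, hd, smul_smul]⟩
  rw [isSemisimpleModule_iff]
  refine ⟨fun p => ?_⟩
  obtain ⟨C, hC⟩ := exists_isCompl (p.restrictScalars ℂ)
  refine ⟨{ carrier := C, add_mem' := C.add_mem, zero_mem' := C.zero_mem, smul_mem' := ?_ }, ?_⟩
  · intro r x hx
    obtain ⟨d, hd⟩ := h1 r
    change r • x ∈ C
    rw [hd]
    exact C.smul_mem d hx
  · rw [isCompl_iff, disjoint_iff, codisjoint_iff] at hC ⊢
    constructor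
    · rw [eq_bot_iff]
      intro v hv
      have h1 : v ∈ (p.restrictScalars ℂ) ⊓ C := ⟨hv.1, hv.2⟩
      rw [hC.1] at h1
      exact (Submodule.mem_bot _).2 ((Submodule.mem_bot _).1 h1)
    · rw [eq_top_iff]
      intro v _
      have h1 : v ∈ (p.restrictScalars ℂ) ⊔ C := by rw [hC.2]; trivial
      obtain ⟨a, ha, b, hb, hab⟩ := Submodule.mem_sup.1 h1
      exact Submodule.mem_sup.2 ⟨a, ha, b, hb, hab⟩

end main

end Pool.Agent.D0H78.WM
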