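import Mathlib

/-!
# Purity of a pair of operators, and its behaviour in exact sequences
-/

set_option autoImplicit false

namespace Pool.Agent.D0H78.WM

open Module Filter

variable {M M' M'' : Type} [AddCommGroup M] [Module ℂ M] [AddCommGroup M'] [Module ℂ M']
  [AddCommGroup M''] [Module ℂ M'']

/-- `N ^ j` is an isomorphism from weight `w + j` to weight `w - j`, for the operator `S`; all
weights are integral. -/
structure Pure (q : ℝ) (w : ℤ) (S N : End ℂ M) : Prop where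
  int : ∀ z : ℂ, (∃ x ∈ S.maxGenEigenspace z, x ≠ 0) → ∃ j : ℤ, ‖z‖ ^ 2 = q ^ (w + j)
  inj : ∀ (j : ℕ) (z : ℂ), ‖z‖ ^ 2 = q ^ (w + j) → ∀ x ∈ S.maxGenEigenspace z,
    (N ^ j) x = 0 → x = 0
  surj : ∀ (j : ℕ) (z : ℂ), ‖z‖ ^ 2 = q ^ (w + j) → ∀ y ∈ S.maxGenEigenspace (z / (q : ℂ) ^ j),
    ∃ x ∈ S.maxGenEigenspace z, (N ^ j) x = y

theorem comm_pow {S : End ℂ M} {S' : End ℂ M'} {f : M →ₗ[ℂ] M'} (h : ∀ x, f (S x) = S' (f x))
    (k : ℕ) (x : M) : f ((S ^ k) x) = (S' ^ k) (f x) := by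
  induction k generalizing x with
  | zero => simp
  | succ k ih => rw [pow_succ, pow_succ, Module.End.mul_apply, Module.End.mul_apply, ih, h]

theorem map_mem {S : End ℂ M} {S' : End ℂ M'} {f : M →ₗ[ℂ] M'} (h : ∀ x, f (S x) = S' (f x))
    {z : ℂ} {x : M} (hx : x ∈ S.maxGenEigenspace z) : f x ∈ S'.maxGenEigenspace z := by
  rw [Module.End.mem_maxGenEigenspace] at hx ⊢
  obtain ⟨k, hk⟩ := hx
  refine ⟨k, ?_⟩
  have h1 : ∀ y, f ((S - z • 1 : End ℂ M) y) = (S' - z • 1 : End ℂ M') (f y) := by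
    intro y
    simp [h]
  rw [← comm_pow h1, hk, map_zero]

theorem mem_of_inj {S : End ℂ M} {S' : End ℂ M'} {f : M →ₗ[ℂ] M'} (hf : Function.Injective f)
    (h : ∀ x, f (S x) = S' (f x))
    {z : ℂ} {x : M} (hx : f x ∈ S'.maxGenEigenspace z) : x ∈ S.maxGenEigenspace z := by
  rw [Module.End.mem_maxGenEigenspace] at hx ⊢
  obtain ⟨k, hk⟩ := hx
  refine ⟨k, hf ?_⟩
  have h1 : ∀ y, f ((S - z • 1 : End ℂ M) y) = (S' - z • 1 : End ℂ M') (f y) := by
    intro y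
    simp [h]
  rw [comm_pow h1, hk, map_zero]

theorem lift_mem [FiniteDimensional ℂ M] [FiniteDimensional ℂ M''] {S : End ℂ M}
    {S'' : End ℂ M''} {f : M →ₗ[ℂ] M''} (hf : Function.Surjective f)
    (h : ∀ x, f (S x) = S'' (f x)) {z : ℂ} {y : M''} (hy : y ∈ S''.maxGenEigenspace z) :
    ∃ x ∈ S.maxGenEigenspace z, f x = y := by
  have h1 : ∀ y, f ((S - z • 1 : End ℂ M) y) = (S'' - z • 1 : End ℂ M'') (f y) := by
    intro y
    simp [h]
  rw [Module.End.mem_maxGenEigenspace] at hy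
  obtain ⟨k, hk⟩ := hy
  obtain ⟨D, ⟨hD1, hD2⟩, hD3⟩ := (((LinearMap.eventually_isCompl_ker_pow_range_pow
    (S - z • 1 : End ℂ M)).and (LinearMap.eventually_isCompl_ker_pow_range_pow
    (S'' - z • 1 : End ℂ M''))).and (eventually_ge_atTop k)).exists
  obtain ⟨x, rfl⟩ := hf y
  have h2 : x ∈ LinearMap.ker ((S - z • 1 : End ℂ M) ^ D) ⊔
      LinearMap.range ((S - z • 1 : End ℂ M) ^ D) := by
    rw [hD1.sup_eq_top]
    exact Submodule.mem_top
  obtain ⟨a, ha, b, ⟨c, rfl⟩, hab⟩ := Submodule.mem_sup.1 h2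
  refine ⟨a, (Module.End.mem_maxGenEigenspace _ _ _).2 ⟨D, ha⟩, ?_⟩
  have h3 : f (((S - z • 1 : End ℂ M) ^ D) c) ∈
      LinearMap.range ((S'' - z • 1 : End ℂ M'') ^ D) := ⟨f c, (comm_pow h1 D c).symm⟩
  have h4 : f (((S - z • 1 : End ℂ M) ^ D) c) ∈
      LinearMap.ker ((S'' - z • 1 : End ℂ M'') ^ D) := by
    have h5 : f (((S - z • 1 : End ℂ M) ^ D) c) = f x - f a := by
      rw [← hab, map_add, add_sub_cancel_left]
    rw [h5]
    refine Submodule.sub_mem _ ?_ ?_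
    · rw [LinearMap.mem_ker, ← Nat.sub_add_cancel hD3, pow_add, Module.End.mul_apply, hk,
        map_zero]
    · rw [LinearMap.mem_ker, ← comm_pow h1, (LinearMap.mem_ker.1 ha), map_zero]
  have h6 : f (((S - z • 1 : End ℂ M) ^ D) c) = 0 := by
    have := hD2.disjoint.le_bot (Submodule.mem_inf.2 ⟨h4, h3⟩)
    simpa using this
  rw [← hab, map_add, h6, add_zero]

/-- purity is closed under extensions -/
theorem Pure.ext [FiniteDimensional ℂ M] [FiniteDimensional ℂ M''] {q : ℝ} {w : ℤ}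
    {S N : End ℂ M} {S' N' : End ℂ M'} {S'' N'' : End ℂ M''} {i : M' →ₗ[ℂ] M} {f : M →ₗ[ℂ] M''}
    (hi : Function.Injective i) (hf : Function.Surjective f)
    (hif : ∀ x, f x = 0 → ∃ y, i y = x)
    (hiS : ∀ x, i (S' x) = S (i x)) (hiN : ∀ x, i (N' x) = N (i x))
    (hfS : ∀ x, f (S x) = S'' (f x)) (hfN : ∀ x, f (N x) = N'' (f x))
    (h' : Pure q w S' N') (h'' : Pure q w S'' N'')
    (hN : ∀ (j : ℕ) (z : ℂ), ∀ x ∈ S.maxGenEigenspace z,
      (N ^ j) x ∈ S.maxGenEigenspace (z / (q : ℂ) ^ j)) : Pure q w S N := by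
  constructor
  · rintro z ⟨x, hx, hx0⟩
    by_cases h1 : f x = 0
    · obtain ⟨y, rfl⟩ := hif x h1
      exact h'.int z ⟨y, mem_of_inj hi hiS hx, fun h2 => hx0 (by rw [h2, map_zero])⟩
    · exact h''.int z ⟨f x, map_mem hfS hx, h1⟩
  · intro j z hz x hx hxN
    have h1 : f x = 0 := h''.inj j z hz _ (map_mem hfS hx) (by
      rw [← comm_pow hfN, hxN, map_zero])
    obtain ⟨y, rfl⟩ := hif x h1
    have h2 : y = 0 := h'.inj j z hz y (mem_of_inj hi hiS hx) (hi (by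
      rw [comm_pow hiN, hxN, map_zero]))
    rw [h2, map_zero]
  · intro j z hz y hy
    obtain ⟨x'', hx'', hxy⟩ := h''.surj j z hz _ (map_mem hfS hy)
    obtain ⟨x, hx, rfl⟩ := lift_mem hf hfS hx''
    have h1 : f (y - (N ^ j) x) = 0 := by
      rw [map_sub, comm_pow hfN, hxy, sub_self]
    obtain ⟨y', hy'⟩ := hif _ h1
    have h2 : y' ∈ S'.maxGenEigenspace (z / (q : ℂ) ^ j) := by
      apply mem_of_inj hi hiS
      rw [hy']
      exact Submodule.sub_mem _ hy (hN j z x hx)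
    obtain ⟨x', hx', hxy'⟩ := h'.surj j z hz y' h2
    refine ⟨x + i x', Submodule.add_mem _ hx (map_mem hiS hx'), ?_⟩
    rw [map_add, ← comm_pow hiN, hxy', hy', add_sub_cancel]

/-- purity is inherited by retracts -/
theorem Pure.retract {q : ℝ} {w : ℤ} {S N : End ℂ M} {S' N' : End ℂ M'} {i : M' →ₗ[ℂ] M}
    {r : M →ₗ[ℂ] M'} (hri : ∀ x, r (i x) = x)
    (hiS : ∀ x, i (S' x) = S (i x)) (hiN : ∀ x, i (N' x) = N (i x))
    (hrS : ∀ x, r (S x) = S' (r x)) (hrN : ∀ x, r (N x) = N' (r x))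
    (h : Pure q w S N) : Pure q w S' N' := by
  constructor
  · rintro z ⟨x, hx, hx0⟩
    exact h.int z ⟨i x, map_mem hiS hx, fun h1 => hx0 (by rw [← hri x, h1, map_zero])⟩
  · intro j z hz x hx hxN
    have h1 : i x = 0 := h.inj j z hz _ (map_mem hiS hx) (by
      rw [← comm_pow hiN, hxN, map_zero])
    rw [← hri x, h1, map_zero]
  · intro j z hz y hy
    obtain ⟨x, hx, hxy⟩ := h.surj j z hz _ (map_mem hiS hy)
    refine ⟨r x, map_mem hrS hx, ?_⟩
    rw [← comm_pow hrN, hxy, hri]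

/-- the zero space -/
theorem Pure.of_subsingleton [Subsingleton M] {q : ℝ} {w : ℤ} {S N : End ℂ M} : Pure q w S N :=
  ⟨fun _ ⟨x, _, hx0⟩ => absurd (Subsingleton.elim x 0) hx0, fun _ _ _ x _ _ => Subsingleton.elim x 0,
    fun _ _ _ _ _ => ⟨0, Submodule.zero_mem _, Subsingleton.elim _ _⟩⟩

/-- multiplication of `N` by a nonzero scalar -/
theorem Pure.smul {q : ℝ} {w : ℤ} {S N : End ℂ M} {c : ℂ} (hc : c ≠ 0) (h : Pure q w S N) :
    Pure q w S (c • N) := by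
  constructor
  · exact h.int
  · intro j z hz x hx hxN
    apply h.inj j z hz x hx
    rw [smul_pow, LinearMap.smul_apply] at hxN
    exact (smul_eq_zero.1 hxN).resolve_left (pow_ne_zero _ hc)
  · intro j z hz y hy
    obtain ⟨x, hx, hxy⟩ := h.surj j z hz y hy
    refine ⟨(c ^ j)⁻¹ • x, Submodule.smul_mem _ _ hx, ?_⟩
    rw [smul_pow, LinearMap.smul_apply, map_smul, smul_smul, mul_inv_cancel₀ (pow_ne_zero _ hc),
      one_smul, hxy]

/-- the operator `N` lowers the weight -/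
theorem lower {q : ℝ} (hq : q ≠ 0) {S N : End ℂ M} (h : ∀ x, S (N x) = (q : ℂ)⁻¹ • N (S x)) (z : ℂ)
    (x : M) (hx : x ∈ S.maxGenEigenspace z) : N x ∈ S.maxGenEigenspace (z / q) := by
  have hq' : (q : ℂ) ≠ 0 := by exact_mod_cast hq
  rw [Module.End.mem_maxGenEigenspace] at hx ⊢
  obtain ⟨k, hk⟩ := hx
  refine ⟨k, ?_⟩
  have h1 : ∀ (k : ℕ) (y : M), ((S - (z / q) • 1 : End ℂ M) ^ k) (N y) =
      ((q : ℂ)⁻¹ ^ k) • N (((S - z • 1 : End ℂ M) ^ k) y) := by
    intro k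
    induction k with
    | zero => intro y; simp
    | succ k ih =>
      intro y
      rw [pow_succ, pow_succ (S - z • 1 : End ℂ M), Module.End.mul_apply, Module.End.mul_apply]
      have h2 : (S - (z / q) • 1 : End ℂ M) (N y) = (q : ℂ)⁻¹ • N ((S - z • 1 : End ℂ M) y) := by
        simp only [LinearMap.sub_apply, LinearMap.smul_apply, Module.End.one_apply, h, map_sub,
          map_smul, smul_sub, smul_smul, div_eq_inv_mul]
      rw [h2, map_smul, ih, smul_smul, pow_succ, mul_comm]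
  rw [h1, hk, map_zero, smul_zero]

theorem lower_pow {q : ℝ} (hq : q ≠ 0) {S N : End ℂ M}
    (h : ∀ x, S (N x) = (q : ℂ)⁻¹ • N (S x)) (j : ℕ) (z : ℂ)
    (x : M) (hx : x ∈ S.maxGenEigenspace z) : (N ^ j) x ∈ S.maxGenEigenspace (z / (q : ℂ) ^ j) := by
  induction j with
  | zero => simpa using hx
  | succ j ih =>
    rw [pow_succ' N, Module.End.mul_apply, pow_succ, ← div_div]
    exact lower hq h _ _ ih

end Pool.Agent.D0H78.WM
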