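import Pool.Agent.D0H78.WM.Pure

/-!
# Modules whose simple constituents occur in a semisimple module
-/

set_option autoImplicit false

namespace Pool.Agent.D0H78.WM

open Module

section simple

variable {R : Type} [Ring R] [Algebra ℂ R]

/-- the action of an element -/
abbrev act (M : Type) [AddCommGroup M] [Module ℂ M] [Module R M] [IsScalarTower ℂ R M] (a : R) :
    End ℂ M := Algebra.lsmul ℂ ℂ M a

variable (W : Type) [AddCommGroup W] [Module ℂ W] [Module R W] [IsScalarTower ℂ R W]
  [FiniteDimensional ℂ W] [IsSemisimpleModule R W]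

theorem exists_retract (V : Type) [AddCommGroup V] [Module R V] [IsSimpleModule R V]
    (h : ∀ a : R, (∀ x : W, a • x = 0) → ∀ x : V, a • x = 0) :
    ∃ (i : V →ₗ[R] W) (r : W →ₗ[R] V), ∀ x, r (i x) = x := by
  classical
  let b := Module.finBasis ℂ W
  let φ : R →ₗ[R] (Fin (finrank ℂ W) → W) :=
    LinearMap.pi fun j => LinearMap.toSpanSingleton R W (b j)
  have hφ : ∀ a j, φ a j = a • b j := fun a j => rfl
  have hker : ∀ a, φ a = 0 → ∀ x : W, a • x = 0 := by
    intro a ha x
    have h1 : act W a = 0 := by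
      apply b.ext
      intro j
      have := congrFun ha j
      rw [hφ] at this
      exact this
    exact LinearMap.congr_fun h1 x
  have hnt : Nontrivial V := IsSimpleModule.nontrivial R V
  obtain ⟨v, hv⟩ := exists_ne (0 : V)
  let f : R →ₗ[R] V := LinearMap.toSpanSingleton R V v
  have hf : Function.Surjective f := IsSimpleModule.toSpanSingleton_surjective R hv
  obtain ⟨C, hC⟩ := exists_isCompl ((LinearMap.ker f).map φ)
  have h1 : φ 1 ∈ (LinearMap.ker f).map φ ⊔ C := by
    rw [hC.sup_eq_top]
    exact Submodule.mem_top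
  obtain ⟨_, ⟨m, hm, rfl⟩, c, hc, hmc⟩ := Submodule.mem_sup.1 h1
  have hm' : f m = 0 := hm
  have hcm : c = φ (1 - m) := by
    rw [map_sub, ← hmc, add_sub_cancel_left]
  let g : R →ₗ[R] (Fin (finrank ℂ W) → W) := LinearMap.toSpanSingleton R _ c
  have hg : ∀ a, g a = a • c := fun a => rfl
  have hle : LinearMap.ker f ≤ LinearMap.ker g := by
    intro a ha
    rw [LinearMap.mem_ker] at ha ⊢
    have h2 : g a ∈ C := C.smul_mem a hc
    have h3 : g a ∈ (LinearMap.ker f).map φ := by
      rw [hg, hcm, ← map_smul]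
      refine ⟨a • (1 - m), ?_, rfl⟩
      change f (a • (1 - m)) = 0
      rw [map_smul, map_sub, hm', sub_zero, ← map_smul, smul_eq_mul, mul_one, ha]
    have h4 := hC.disjoint.le_bot (Submodule.mem_inf.2 ⟨h3, h2⟩)
    simpa using h4
  have hc0 : c ≠ 0 := by
    intro h0
    rw [hcm] at h0
    have h2 := h _ (hker _ h0) v
    have h3 : m • v = 0 := hm'
    rw [sub_smul, one_smul, h3, sub_zero] at h2
    exact hv h2
  obtain ⟨j, hj⟩ := Function.ne_iff.1 hc0
  let i : V →ₗ[R] W := (LinearMap.proj j).comp
    (((LinearMap.ker f).liftQ g hle).comp (f.quotKerEquivOfSurjective hf).symm.toLinearMap)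
  have hiv : i v = c j := by
    have h2 : (f.quotKerEquivOfSurjective hf).symm v = Submodule.Quotient.mk 1 := by
      rw [LinearEquiv.symm_apply_eq]
      change v = f 1
      exact (one_smul R v).symm
    change (((LinearMap.ker f).liftQ g hle)
      ((f.quotKerEquivOfSurjective hf).symm v)) j = c j
    rw [h2]
    change (g 1) j = c j
    rw [hg, one_smul]
  have hi0 : i ≠ 0 := by
    intro h0
    rw [h0, LinearMap.zero_apply] at hiv
    exact hj hiv.symm
  have hii : Function.Injective i := LinearMap.injective_of_ne_zero hi0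
  obtain ⟨C', hC'⟩ := exists_isCompl (LinearMap.range i)
  refine ⟨i, ((LinearEquiv.ofInjective i hii).symm.toLinearMap).comp
    ((LinearMap.range i).projectionOnto C' hC'), fun x => ?_⟩
  change (LinearEquiv.ofInjective i hii).symm (((LinearMap.range i).projectionOnto C' hC') (i x)) = x
  rw [LinearEquiv.symm_apply_eq]
  exact Submodule.projectionOnto_apply_left hC' ⟨i x, ⟨x, rfl⟩⟩

omit [Algebra ℂ R] [Module ℂ W] [IsScalarTower ℂ R W] [FiniteDimensional ℂ W]
  [IsSemisimpleModule R W] in
/-- a simple subquotient on which the annihilator acts nilpotently is killed by it -/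
theorem killed (V : Type) [AddCommGroup V] [Module R V] [IsSimpleModule R V]
    (h : ∀ a : R, (∀ x : W, a • x = 0) → ∃ k : ℕ, ∀ x : V, a ^ k • x = 0) :
    ∀ a : R, (∀ x : W, a • x = 0) → ∀ x : V, a • x = 0 := by
  intro a ha x
  by_contra hax
  obtain ⟨b, hb⟩ := IsSimpleModule.toSpanSingleton_surjective R hax x
  have hb' : (b * a) • x = x := by
    rw [mul_smul]
    exact hb
  obtain ⟨k, hk⟩ := h (b * a) fun y => by rw [mul_smul, ha, smul_zero]
  have h1 : ∀ k : ℕ, (b * a) ^ k • x = x := by
    intro k
    induction k with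
    | zero => rw [pow_zero, one_smul]
    | succ k ih => rw [pow_succ, mul_smul, hb', ih]
  have h2 := hk x
  rw [h1] at h2
  apply hax
  rw [h2, smul_zero]

end simple

section main

variable {R : Type} [Ring R] [Algebra ℂ R]
variable (W : Type) [AddCommGroup W] [Module ℂ W] [Module R W] [IsScalarTower ℂ R W]
  [FiniteDimensional ℂ W] [IsSemisimpleModule R W]

/-- the main statement by induction on the dimension -/
theorem pure_of_nil {q : ℝ} (hq : q ≠ 0) {w : ℤ} {s ν : R} (hW : Pure q w (act W s) (act W ν))
    (d : ℕ) : ∀ (T : Type) [AddCommGroup T] [Module ℂ T] [Module R T] [IsScalarTower ℂ R T]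
      [FiniteDimensional ℂ T], finrank ℂ T = d →
      (∀ x : T, s • ν • x = (q : ℂ)⁻¹ • ν • s • x) →
      (∀ a : R, (∀ x : W, a • x = 0) → ∃ k : ℕ, ∀ x : T, a ^ k • x = 0) →
      Pure q w (act T s) (act T ν) := by
  induction d using Nat.strong_induction_on with
  | _ d ih =>
    intro T _ _ _ _ _ hd hrel hnil
    by_cases hsub : Subsingleton T
    · exact Pure.of_subsingleton
    rw [not_subsingleton_iff_nontrivial] at hsub
    have hart : IsArtinian R T := isArtinian_of_tower ℂ inferInstance
    obtain ⟨V, hV⟩ := IsAtomic.exists_atom (Submodule R T)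
    have hsimple : IsSimpleModule R V := isSimpleModule_iff_isAtom.2 hV
    have hfdV : FiniteDimensional ℂ V :=
      FiniteDimensional.finiteDimensional_submodule (V.restrictScalars ℂ)
    have hVnil : ∀ a : R, (∀ x : W, a • x = 0) → ∃ k : ℕ, ∀ x : V, a ^ k • x = 0 := by
      intro a ha
      obtain ⟨k, hk⟩ := hnil a ha
      exact ⟨k, fun x => Subtype.ext (hk x)⟩
    obtain ⟨i, r, hri⟩ := exists_retract W V (killed W V hVnil)
    have hVp : Pure q w (act V s) (act V ν) :=
      Pure.retract (S := act W s) (N := act W ν) (S' := act V s) (N' := act V ν)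
        (i := i.restrictScalars ℂ) (r := r.restrictScalars ℂ) hri
        (fun x => i.map_smul s x) (fun x => i.map_smul ν x) (fun x => r.map_smul s x)
        (fun x => r.map_smul ν x) hW
    have hfdQ : FiniteDimensional ℂ (T ⧸ V) :=
      Module.Finite.of_surjective (V.mkQ.restrictScalars ℂ) V.mkQ_surjective
    have hlt : finrank ℂ (T ⧸ V) < d := by
      have h1 : finrank ℂ (T ⧸ V.restrictScalars ℂ) + finrank ℂ (V.restrictScalars ℂ) =
          finrank ℂ T := Submodule.finrank_quotient_add_finrank _
      have h2 : finrank ℂ (T ⧸ V) = finrank ℂ (T ⧸ V.restrictScalars ℂ) := rfl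
      have h3 : 0 < finrank ℂ (V.restrictScalars ℂ) := by
        rw [Module.finrank_pos_iff]
        exact IsSimpleModule.nontrivial R V
      omega
    have hQp : Pure q w (act (T ⧸ V) s) (act (T ⧸ V) ν) := by
      refine ih _ hlt (T ⧸ V) rfl ?_ ?_
      · intro x
        obtain ⟨y, rfl⟩ := V.mkQ_surjective x
        rw [← map_smul, ← map_smul, hrel]
        rfl
      · intro a ha
        obtain ⟨k, hk⟩ := hnil a ha
        refine ⟨k, fun x => ?_⟩
        obtain ⟨y, rfl⟩ := V.mkQ_surjective x
        rw [← map_smul, hk, map_zero]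
    refine Pure.ext (i := V.subtype.restrictScalars ℂ) (f := V.mkQ.restrictScalars ℂ)
      Subtype.val_injective V.mkQ_surjective ?_ (fun x => rfl) (fun x => rfl) (fun x => rfl)
      (fun x => rfl) hVp hQp ?_
    · intro x hx
      have h1 : x ∈ V := (Submodule.Quotient.mk_eq_zero V).1 hx
      exact ⟨⟨x, h1⟩, rfl⟩
    · intro j z x hx
      exact lower_pow hq (fun y => hrel y) j z x hx

end main

end Pool.Agent.D0H78.WM
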