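import Pool.Agent.D0H78.WM.Fil

/-!
# Uniqueness of the monodromy filtration
-/

set_option autoImplicit false

namespace Pool.Agent.D0H78.WM

open Module

variable {M : Type} [AddCommGroup M] [Module ℂ M]

theorem MF.low_pow {N : End ℂ M} {Fil : ℤ → Submodule ℂ M} (h : MF N Fil) (j : ℕ) (s : ℤ) (x : M)
    (hx : x ∈ Fil s) : (N ^ j) x ∈ Fil (s - 2 * j) := by
  induction j with
  | zero => simpa using hx
  | succ j ih =>
    rw [pow_succ', Module.End.mul_apply]
    have h1 := h.low _ _ ih
    have h2 : s - 2 * (j : ℤ) - 2 = s - 2 * ((j + 1 : ℕ) : ℤ) := by push_cast; ring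
    rwa [h2] at h1

theorem MF.surj' {N : End ℂ M} {Fil : ℤ → Submodule ℂ M} (h : MF N Fil) (c : ℕ) (y : M)
    (hy : y ∈ Fil (-c)) : ∃ x ∈ Fil c, (N ^ c) x = y := by
  obtain ⟨a, ha⟩ := h.bot
  -- downward: all elements of `Fil (- c - i)`
  have key : ∀ (d : ℕ) (c : ℕ), -(c : ℤ) - d ≤ a → ∀ y ∈ Fil (-c), ∃ x ∈ Fil c, (N ^ c) x = y := by
    intro d
    induction d with
    | zero =>
      intro c hc y hy
      have h1 : y ∈ Fil a := h.mono (by simpa using hc) hy
      rw [ha] at h1
      exact ⟨0, Submodule.zero_mem _, by rw [map_zero, (Submodule.mem_bot _).1 h1]⟩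
    | succ d ih =>
      intro c hc y hy
      obtain ⟨x, hx, hxy⟩ := h.surj c y hy
      obtain ⟨x', hx', hxy'⟩ := ih (c + 1) (by push_cast at hc ⊢; linarith) (y - (N ^ c) x) (by
        have h1 : -(c : ℤ) - 1 = -((c + 1 : ℕ) : ℤ) := by push_cast; ring
        rwa [h1] at hxy)
      refine ⟨x + N x', Submodule.add_mem _ hx ?_, ?_⟩
      · have h1 := h.low _ _ hx'
        refine h.mono ?_ h1
        push_cast
        linarith
      · have h1 : (N ^ c) (N x') = (N ^ (c + 1)) x' := by
          rw [pow_succ, Module.End.mul_apply]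
        rw [map_add, h1, hxy']
        abel
  refine key (a.natAbs + c + 1) c ?_ y hy
  push_cast
  have hc : (0 : ℤ) ≤ c := by positivity
  linarith [neg_abs_le a]

theorem MF.le {N : End ℂ M} {Fil Fil' : ℤ → Submodule ℂ M} (h : MF N Fil) (h' : MF N Fil') (s : ℤ) :
    Fil s ≤ Fil' s := by
  obtain ⟨a, ha⟩ := h.bot
  obtain ⟨b, hb⟩ := h'.top
  have step : ∀ d : ℕ, (∀ s, Fil s ≤ Fil' (s + d + 1)) → ∀ s, Fil s ≤ Fil' (s + d) := by
    intro d hd
    -- the case `0 ≤ s + d + 1`
    have h1 : ∀ (r : ℕ) (s : ℤ), 0 ≤ s + d + 1 → b - s ≤ r → Fil s ≤ Fil' (s + d) := by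
      intro r
      induction r with
      | zero =>
        intro s _ hs x _
        have h2 : x ∈ Fil' b := by rw [hb]; trivial
        exact h'.mono (by push_cast at hs; linarith) h2
      | succ r ih =>
        intro s hs0 hs x hx
        by_contra hcon
        obtain ⟨B, hB⟩ := Int.eq_ofNat_of_zero_le hs0
        have h2 : x ∈ Fil' B := by
          have := hd s hx
          rwa [hB] at this
        have h3 : (N ^ B) x ∉ Fil' (-B - 1) := by
          intro h4
          have h5 := h'.inj B x h2 h4
          apply hcon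
          have h6 : (B : ℤ) - 1 = s + d := by
            have : ((B : ℕ) : ℤ) = s + d + 1 := hB.symm
            linarith
          rwa [h6] at h5
        have hBs : ((B : ℕ) : ℤ) = s + d + 1 := hB.symm
        have h4 : (N ^ B) x ∈ Fil (-((B + (d + 1) : ℕ) : ℤ)) := by
          have h5 := h.low_pow B s x hx
          have h6 : s - 2 * (B : ℤ) = -((B + (d + 1) : ℕ) : ℤ) := by
            push_cast
            linarith
          rwa [h6] at h5
        obtain ⟨x', hx', hxx'⟩ := h.surj' (B + (d + 1)) _ h4
        have h5 : x' ∈ Fil' (((B + (d + 1) : ℕ) : ℤ) + d) := by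
          refine ih _ (by positivity) ?_ hx'
          push_cast at hs ⊢
          linarith
        have h6 := h'.low_pow (B + (d + 1)) _ x' h5
        rw [hxx'] at h6
        apply h3
        refine h'.mono ?_ h6
        push_cast
        linarith
    intro s
    by_cases hs : 0 ≤ s + d + 1
    · refine h1 (b - s).toNat s hs ?_
      exact Int.self_le_toNat _
    · push Not at hs
      intro x hx
      have hs0 : 0 ≤ -s := by
        have : (0 : ℤ) ≤ d := by positivity
        linarith
      obtain ⟨c, hc⟩ := Int.eq_ofNat_of_zero_le hs0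
      have hc' : s = -(c : ℤ) := by
        have : -s = ((c : ℕ) : ℤ) := hc
        linarith
      rw [hc'] at hx
      obtain ⟨x', hx', hxx'⟩ := h.surj' c x hx
      have h2 : x' ∈ Fil' ((c : ℤ) + d) :=
        h1 (b - c).toNat c (by positivity) (Int.self_le_toNat _) hx'
      have h3 := h'.low_pow c _ x' h2
      rw [hxx'] at h3
      refine h'.mono ?_ h3
      rw [hc']
      linarith
  have all : ∀ r : ℕ, ∀ d : ℕ, (b - a).toNat ≤ d + r → ∀ s, Fil s ≤ Fil' (s + d) := by
    intro r
    induction r with
    | zero =>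
      intro d hd s x hx
      by_cases hs : s ≤ a
      · have h1 : x ∈ Fil a := h.mono hs hx
        rw [ha] at h1
        rw [(Submodule.mem_bot _).1 h1]
        exact Submodule.zero_mem _
      · have h1 : x ∈ Fil' b := by rw [hb]; trivial
        refine h'.mono ?_ h1
        have h2 := Int.self_le_toNat (b - a)
        have h3 : (((b - a).toNat : ℕ) : ℤ) ≤ d := by exact_mod_cast hd
        linarith [not_le.1 hs]
    | succ r ih =>
      intro d hd
      refine step d ?_
      intro s
      have h1 := ih (d + 1) (by omega) s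
      have h2 : s + ((d + 1 : ℕ) : ℤ) = s + d + 1 := by push_cast; ring
      rwa [h2] at h1
  have h1 := all (b - a).toNat 0 (by omega) s
  simpa using h1

/-- **The monodromy filtration is unique.** -/
theorem MF.unique {N : End ℂ M} {Fil Fil' : ℤ → Submodule ℂ M} (h : MF N Fil) (h' : MF N Fil') :
    Fil = Fil' := by
  funext s
  exact le_antisymm (h.le h' s) (h'.le h s)

end Pool.Agent.D0H78.WM
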